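import Pool.Agent.Lib.MP_25ed17_al.Walk

/-!
Counting: filtrations of vector spaces over Laurent series fields and spaces over the residue
field.
-/

namespace Pool.Agent.Lib.MP_25ed17_al

open HahnSeries QuadraticMap Module

variable {K : Type*} [Field K]

/-- A filtration of a vector space over the Laurent series field, with scaling by `2`. -/
structure ValFil (U : Type*) [AddCommGroup U] [Module (LaurentSeries K) U] (S : ℤ → Set U) :
    Prop where
  zero : ∀ k, (0 : U) ∈ S k
  add : ∀ k x y, x ∈ S k → y ∈ S k → x + y ∈ S k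
  smul : ∀ (a : LaurentSeries K) m k x, I m a → x ∈ S k → a • x ∈ S (m + m + k)
  mono : ∀ k l x, l ≤ k → x ∈ S k → x ∈ S l
  exh : ∀ x, ∃ k, x ∈ S k
  sep : ∀ x, (∀ k : ℕ, x ∈ S k) → x = 0

section

variable {U : Type*} [AddCommGroup U] [Module (LaurentSeries K) U] [Module K U]
  [IsScalarTower K (LaurentSeries K) U]

theorem C_smul (c : K) (x : U) : (C c : LaurentSeries K) • x = c • x := by
  have : (C c : LaurentSeries K) = c • (1 : LaurentSeries K) := by
    rw [← C_mul_eq_smul, mul_one]
  rw [this, smul_assoc, one_smul]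

variable {S : ℤ → Set U}

/-- The sets of a filtration are subspaces over the residue field. -/
def ValFil.sub (h : ValFil (K := K) U S) (k : ℤ) : Submodule K U where
  carrier := S k
  zero_mem' := h.zero k
  add_mem' := fun {x y} hx hy => h.add k x y hx hy
  smul_mem' := fun c x hx => by
    rw [← C_smul]
    have := h.smul (C c) 0 k x (I_C c) hx
    simpa using this

theorem ValFil.mem_sub (h : ValFil (K := K) U S) {k : ℤ} {x : U} : x ∈ h.sub k ↔ x ∈ S k :=
  Iff.rfl

omit [Module (LaurentSeries K) U] [IsScalarTower K (LaurentSeries K) U] in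
/-- Relative complements. -/
theorem exists_rel_compl {P Q : Submodule K U} (h : P ≤ Q) :
    ∃ C : Submodule K U, C ≤ Q ∧ C ⊓ P = ⊥ ∧ Q ≤ C ⊔ P := by
  obtain ⟨C, hC⟩ := exists_isCompl P
  refine ⟨C ⊓ Q, inf_le_right, ?_, ?_⟩
  · rw [eq_bot_iff, ← hC.inf_eq_bot]
    exact fun x hx => ⟨hx.2, hx.1.1⟩
  · have h1 : P ⊔ C ⊓ Q = (P ⊔ C) ⊓ Q := (sup_inf_assoc_of_le C h).symm
    rw [sup_comm, h1, hC.sup_eq_top, top_inf_eq]

omit [Module (LaurentSeries K) U] [IsScalarTower K (LaurentSeries K) U] in
theorem exists_fin_sub {C : Submodule K U} (hC : ¬ FiniteDimensional K C) (n : ℕ) :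
    ∃ T : Submodule K U, T ≤ C ∧ FiniteDimensional K T ∧ finrank K T = n := by
  have h1 : (n : Cardinal) ≤ Module.rank K C := by
    by_contra hcon
    push Not at hcon
    exact hC (Module.rank_lt_aleph0_iff.1 (hcon.trans Cardinal.natCast_lt_aleph0))
  obtain ⟨s, hs, hli⟩ := le_rank_iff_exists_linearIndependent_finset.1 h1
  refine ⟨(Submodule.span K (s : Set C)).map C.subtype, ?_, ?_, ?_⟩
  · exact Submodule.map_subtype_le _ _
  · infer_instance
  · rw [← hs, LinearEquiv.finrank_eq
      (Submodule.equivMapOfInjective C.subtype C.injective_subtype _).symm]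
    exact finrank_span_finset_eq_card hli

theorem ValFil.count (h : ValFil (K := K) U S) [FiniteDimensional (LaurentSeries K) U] :
    ∃ T₀ T₁ : Submodule K U, FiniteDimensional K T₀ ∧ FiniteDimensional K T₁ ∧
      (∀ x ∈ T₀, x ∈ S 0) ∧ (∀ x ∈ T₀, x ∈ S 1 → x = 0) ∧
      (∀ x ∈ T₁, x ∈ S 1) ∧ (∀ x ∈ T₁, x ∈ S 2 → x = 0) ∧
      finrank (LaurentSeries K) U ≤ finrank K T₀ + finrank K T₁ := by
  obtain ⟨C₀, hC₀, hC₀', hC₀''⟩ := exists_rel_compl (P := h.sub 1) (Q := h.sub 0)
    (fun x hx => h.mono 1 0 x (by norm_num) hx)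
  obtain ⟨C₁, hC₁, hC₁', hC₁''⟩ := exists_rel_compl (P := h.sub 2) (Q := h.sub 1)
    (fun x hx => h.mono 2 1 x (by norm_num) hx)
  have hz0 : ∀ T ≤ C₀, ∀ x ∈ T, x ∈ S 1 → x = 0 := by
    intro T hT x hx hx1
    have : x ∈ C₀ ⊓ h.sub 1 := ⟨hT hx, hx1⟩
    rwa [hC₀', Submodule.mem_bot] at this
  have hz1 : ∀ T ≤ C₁, ∀ x ∈ T, x ∈ S 2 → x = 0 := by
    intro T hT x hx hx1
    have : x ∈ C₁ ⊓ h.sub 2 := ⟨hT hx, hx1⟩
    rwa [hC₁', Submodule.mem_bot] at this
  by_cases hf0 : FiniteDimensional K C₀
  swap
  · obtain ⟨T, hT, hTf, hTn⟩ := exists_fin_sub hf0 (finrank (LaurentSeries K) U)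
    refine ⟨T, ⊥, hTf, inferInstance, fun x hx => hC₀ (hT hx), hz0 T hT,
      fun x hx => ?_, fun x hx _ => (Submodule.mem_bot K).1 hx, ?_⟩
    · rw [(Submodule.mem_bot K).1 hx]; exact h.zero 1
    · rw [hTn]; exact Nat.le_add_right _ _
  by_cases hf1 : FiniteDimensional K C₁
  swap
  · obtain ⟨T, hT, hTf, hTn⟩ := exists_fin_sub hf1 (finrank (LaurentSeries K) U)
    refine ⟨⊥, T, inferInstance, hTf, fun x hx => ?_,
      fun x hx _ => (Submodule.mem_bot K).1 hx, fun x hx => hC₁ (hT hx), hz1 T hT, ?_⟩
    · rw [(Submodule.mem_bot K).1 hx]; exact h.zero 0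
    · rw [hTn]; exact Nat.le_add_left _ _
  refine ⟨C₀, C₁, hf0, hf1, fun x hx => hC₀ hx, hz0 C₀ le_rfl, fun x hx => hC₁ hx,
    hz1 C₁ le_rfl, ?_⟩
  -- the sum spans
  let D : Submodule K U := C₀ ⊔ C₁
  have hD0 : ∀ x ∈ D, x ∈ S 0 := by
    intro x hx
    have : D ≤ h.sub 0 := sup_le hC₀ (hC₁.trans fun x hx => h.mono 1 0 x (by norm_num) hx)
    exact this hx
  have hdec : ∀ u : U, u ∈ S 0 → ∃ τ ∈ D, ∃ u' ∈ S 0, u = τ + (T 1 : LaurentSeries K) • u' := by
    intro u hu
    obtain ⟨a, ha, b, hb, hab⟩ := Submodule.mem_sup.1 (hC₀'' (show u ∈ h.sub 0 from hu))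
    obtain ⟨c, hc, d, hd, hcd⟩ := Submodule.mem_sup.1 (hC₁'' hb)
    refine ⟨a + c, add_mem (Submodule.mem_sup_left ha) (Submodule.mem_sup_right hc),
      (T (-1) : LaurentSeries K) • d, ?_, ?_⟩
    · have := h.smul (T (-1)) (-1) 2 d (I_T _) hd
      simpa using this
    · rw [smul_smul, T_mul, add_neg_cancel, T_zero, one_smul, add_assoc, hcd, hab]
  let e := finBasis K D
  have hspan : ∀ u : U, u ∈ S 0 →
      u ∈ Submodule.span (LaurentSeries K) (Set.range fun j => (e j : U)) := by
    intro u hu
    choose! τ hτ u' hu' hτu using hdec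
    let us : ℕ → U := fun n => u'^[n] u
    have hus : ∀ n, us (n + 1) = u' (us n) := fun n => Function.iterate_succ_apply' u' n u
    have hus0 : ∀ n, us n ∈ S 0 := by
      intro n
      induction n with
      | zero => exact hu
      | succ n ih => rw [hus]; exact hu' _ ih
    let cf : ℕ → Fin (finrank K D) → K := fun n j => e.repr ⟨τ (us n), hτ _ (hus0 n)⟩ j
    have hcf : ∀ n, τ (us n) = ∑ j, cf n j • (e j : U) := by
      intro n
      have := congrArg (D.subtype) (e.sum_repr ⟨τ (us n), hτ _ (hus0 n)⟩)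
      simp only [map_sum, map_smul, Submodule.subtype_apply] at this
      exact this.symm
    let a : ℕ → Fin (finrank K D) → LaurentSeries K := fun N j =>
      ofPowerSeries ℤ K (PowerSeries.mk fun i => cf (N + i) j)
    have ha : ∀ N j, a N j = C (cf N j) + T 1 * a (N + 1) j := by
      intro N j
      have h1 : (PowerSeries.mk fun i => cf (N + i) j) = PowerSeries.C (cf N j) +
          PowerSeries.X * (PowerSeries.mk fun i => cf (N + 1 + i) j) := by
        ext i
        cases i with
        | zero => simp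
        | succ i =>
          rw [map_add, PowerSeries.coeff_succ_X_mul, PowerSeries.coeff_mk, PowerSeries.coeff_mk,
            PowerSeries.coeff_C, if_neg (Nat.succ_ne_zero i), zero_add]
          congr 1
          ring
      simp only [a]
      rw [h1, map_add, map_mul, PowerSeries.coe_C, PowerSeries.coe_X]
      rfl
    let r : ℕ → U := fun N => us N - ∑ j, a N j • (e j : U)
    have hr : ∀ N, r N = (T 1 : LaurentSeries K) • r (N + 1) := by
      intro N
      have h1 : us N = τ (us N) + (T 1 : LaurentSeries K) • us (N + 1) := by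
        rw [hus]; exact hτu _ (hus0 N)
      have h2 : ∑ j, a N j • (e j : U) = τ (us N) + (T 1 : LaurentSeries K) •
          ∑ j, a (N + 1) j • (e j : U) := by
        rw [hcf, Finset.smul_sum, ← Finset.sum_add_distrib]
        refine Finset.sum_congr rfl fun j _ => ?_
        rw [ha, add_smul, C_smul, smul_smul]
      simp only [r]
      rw [h2, smul_sub]
      nth_rewrite 1 [h1]
      abel
    have hr0 : ∀ N, r N ∈ S 0 := by
      intro N
      have h1 : ∀ j, a N j • (e j : U) ∈ h.sub 0 := by
        intro j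
        have := h.smul (a N j) 0 0 (e j : U) (I_ps _) (hD0 _ (e j).2)
        rw [add_zero, add_zero] at this
        exact this
      have h2 : us N ∈ h.sub 0 := hus0 N
      exact (h.sub 0).sub_mem h2 ((h.sub 0).sum_mem fun j _ => h1 j)
    have hrS : ∀ N : ℕ, r 0 = (T (N : ℤ) : LaurentSeries K) • r N := by
      intro N
      induction N with
      | zero =>
        have : (T ((0 : ℕ) : ℤ) : LaurentSeries K) = 1 := T_zero
        rw [this, one_smul]
      | succ N ih =>
        rw [ih]
        conv_lhs => rw [hr N]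
        rw [smul_smul, T_mul]
        congr 2
    have hr00 : r 0 = 0 := by
      apply h.sep
      intro k
      rw [hrS k]
      have := h.smul (T (k : ℤ)) k 0 (r k) (I_T _) (hr0 k)
      exact h.mono _ _ _ (by linarith [Int.natCast_nonneg k]) this
    have hu0 : u = ∑ j, a 0 j • (e j : U) := by
      have : us 0 = u := rfl
      rw [← this]
      exact sub_eq_zero.1 hr00
    rw [hu0]
    exact Submodule.sum_mem _ fun j _ => Submodule.smul_mem _ _
      (Submodule.subset_span ⟨j, rfl⟩)
  have htop : Submodule.span (LaurentSeries K) (Set.range fun j => (e j : U)) = ⊤ := by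
    rw [eq_top_iff]
    intro u _
    obtain ⟨k, hk⟩ := h.exh u
    have h1 : (T (k.natAbs : ℤ) : LaurentSeries K) • u ∈ S 0 := by
      have := h.smul (T (k.natAbs : ℤ)) k.natAbs k u (I_T _) hk
      refine h.mono _ _ _ ?_ this
      have := abs_nonneg k
      have := neg_abs_le k
      rw [Int.natCast_natAbs]
      linarith
    have h2 := Submodule.smul_mem _ (T (-(k.natAbs : ℤ)) : LaurentSeries K) (hspan _ h1)
    rwa [smul_smul, T_mul, neg_add_cancel, T_zero, one_smul] at h2
  calc finrank (LaurentSeries K) U ≤ Fintype.card (Fin (finrank K D)) :=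
        finrank_le_of_span_eq_top htop
    _ = finrank K D := Fintype.card_fin _
    _ ≤ finrank K C₀ + finrank K C₁ := Submodule.finrank_add_le_finrank_add_finrank _ _

end

/-- There is an anisotropic pair of forms over `K` in at least `N / 2` variables. -/
def KSys (K : Type*) [Field K] (N : ℕ) : Prop :=
  ∃ n' : ℕ, N ≤ 2 * n' ∧ ∃ q : QuadraticMap K (Fin n' → K) (Fin 2 → K), ∀ x, q x = 0 → x = 0

theorem KSys.of_space {N : ℕ} {E : Type*} [AddCommGroup E] [Module K E] [FiniteDimensional K E]
    (q : QuadraticMap K E (Fin 2 → K)) (hq : ∀ x, q x = 0 → x = 0)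
    (h : N ≤ 2 * finrank K E) : KSys K N := by
  refine ⟨finrank K E, h, q.comp (finBasis K E).equivFun.symm.toLinearMap, fun x hx => ?_⟩
  have := hq _ hx
  exact (LinearEquiv.map_eq_zero_iff (finBasis K E).equivFun.symm).1 this

instance isTower : IsScalarTower K (LaurentSeries K) (LaurentSeries K) :=
  ⟨fun c a b => by
    rw [smul_eq_mul, smul_eq_mul, ← C_mul_eq_smul, ← C_mul_eq_smul, mul_assoc]⟩

section

variable {V : Type*} [AddCommGroup V] [Module (LaurentSeries K) V] [Module K V]
  [IsScalarTower K (LaurentSeries K) V] [FiniteDimensional (LaurentSeries K) V]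
  {A B : QuadraticMap (LaurentSeries K) V (LaurentSeries K)}

omit [FiniteDimensional (LaurentSeries K) V] in
theorem map_K_smul (Q : QuadraticMap (LaurentSeries K) V (LaurentSeries K)) (c : K) (x : V) :
    Q (c • x) = C (c * c) * Q x := by
  rw [← C_smul (K := K), QuadraticMap.map_smul, ← map_mul, smul_eq_mul]

/-- A coefficient of a form, as a form over the residue field. -/
noncomputable def coeffQ (k : ℤ) (Q : QuadraticMap (LaurentSeries K) V (LaurentSeries K)) :
    QuadraticMap K V K where
  toFun x := (Q x).coeff k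
  toFun_smul c x := by
    rw [map_K_smul, C_mul_eq_smul]
    simp
  exists_companion' := by
    refine ⟨LinearMap.mk₂ K (fun x y => (polar Q x y).coeff k) ?_ ?_ ?_ ?_, fun x y => ?_⟩
    · intro x x' y
      rw [polar_add_left, coeff_add]
    · intro c x y
      rw [← C_smul (K := K), polar_smul_left, smul_eq_mul, C_mul_eq_smul, coeff_smul, smul_eq_mul]
    · intro x y y'
      rw [polar_add_right, coeff_add]
    · intro c x y
      rw [← C_smul (K := K), polar_smul_right, smul_eq_mul, C_mul_eq_smul, coeff_smul, smul_eq_mul]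
    · have e1 : Q (x + y) = Q x + Q y + polar Q x y := by rw [polar]; ring
      rw [LinearMap.mk₂_apply, e1, coeff_add, coeff_add]

omit [FiniteDimensional (LaurentSeries K) V] in
theorem coeffQ_apply (k : ℤ) (Q : QuadraticMap (LaurentSeries K) V (LaurentSeries K)) (x : V) :
    coeffQ k Q x = (Q x).coeff k := rfl

/-- Two forms as a pair. -/
noncomputable def pairK {E : Type*} [AddCommGroup E] [Module K E] (f g : QuadraticMap K E K) :
    QuadraticMap K E (Fin 2 → K) :=
  (LinearMap.single K (fun _ : Fin 2 => K) 0).compQuadraticMap f +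
    (LinearMap.single K (fun _ : Fin 2 => K) 1).compQuadraticMap g

theorem pairK_eq_zero {E : Type*} [AddCommGroup E] [Module K E] {f g : QuadraticMap K E K} {x : E}
    (h : pairK f g x = 0) : f x = 0 ∧ g x = 0 := by
  have e0 := congrFun h 0
  have e1 := congrFun h 1
  simp [pairK] at e0 e1
  exact ⟨e0, e1⟩

theorem KSys.of_prod {N : ℕ} {E F : Type*} [AddCommGroup E] [Module K E] [FiniteDimensional K E]
    [AddCommGroup F] [Module K F] [FiniteDimensional K F]
    (f : QuadraticMap K E K) (g : QuadraticMap K F K) (hf : ∀ x, f x = 0 → x = 0)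
    (hg : ∀ x, g x = 0 → x = 0) (h : N ≤ 2 * (finrank K E + finrank K F)) : KSys K N := by
  refine KSys.of_space (E := E × F)
    (pairK (f.comp (LinearMap.fst K E F)) (g.comp (LinearMap.snd K E F))) (fun x hx => ?_) ?_
  · obtain ⟨e0, e1⟩ := pairK_eq_zero hx
    exact Prod.ext (hf _ e0) (hg _ e1)
  · rw [finrank_prod]; exact h

omit [Module K V] [IsScalarTower K (LaurentSeries K) V]
  [FiniteDimensional (LaurentSeries K) V] in
theorem Good.valFil (h : Good A B) (hAB : Aniso A B) :
    ValFil (K := K) V (fun k => {x | I k (A x) ∧ I k (B x)}) where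
  zero k := by
    constructor
    · rw [QuadraticMap.map_zero]; exact I_zero k
    · rw [QuadraticMap.map_zero]; exact I_zero k
  add k x y hx hy := by
    obtain ⟨h1, h2⟩ := h k x y hx.1 hy.1 hx.2 hy.2
    have e1 : A (x + y) = A x + A y + polar A x y := by rw [polar]; ring
    have e2 : B (x + y) = B x + B y + polar B x y := by rw [polar]; ring
    constructor
    · rw [e1]; exact (hx.1.add hy.1).add h1
    · rw [e2]; exact (hx.2.add hy.2).add h2
  smul a m k x ha hx := by
    constructor
    · rw [QuadraticMap.map_smul]; exact (ha.mul ha).mul hx.1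
    · rw [QuadraticMap.map_smul]; exact (ha.mul ha).mul hx.2
  mono k l x hkl hx := ⟨hx.1.mono hkl, hx.2.mono hkl⟩
  exh x := by
    obtain ⟨k, hk⟩ := exists_I (A x)
    obtain ⟨k', hk'⟩ := exists_I (B x)
    exact ⟨min k k', hk.mono (min_le_left _ _), hk'.mono (min_le_right _ _)⟩
  sep x hx := hAB x (eq_zero_of_I fun k => (hx k).1) (eq_zero_of_I fun k => (hx k).2)

theorem Good.kSys (h : Good A B) (hAB : Aniso A B) :
    KSys K (finrank (LaurentSeries K) V) := by
  obtain ⟨T₀, T₁, _, _, h0, h0', h1, h1', hc⟩ := (h.valFil hAB).count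
  have hmain : ∀ (k : ℤ) (D : Submodule K V), FiniteDimensional K D →
      (∀ x ∈ D, I k (A x) ∧ I k (B x)) → (∀ x ∈ D, I (k + 1) (A x) ∧ I (k + 1) (B x) → x = 0) →
      finrank (LaurentSeries K) V ≤ 2 * finrank K D → KSys K (finrank (LaurentSeries K) V) := by
    intro k D _ hD hD' hfin
    refine KSys.of_space (pairK ((coeffQ k A).comp D.subtype) ((coeffQ k B).comp D.subtype))
      (fun x hx => ?_) hfin
    obtain ⟨e0, e1⟩ := pairK_eq_zero hx
    change (A x).coeff k = 0 at e0
    change (B x).coeff k = 0 at e1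
    exact Subtype.ext (hD' x x.2 ⟨(hD x x.2).1.succ e0, (hD x x.2).2.succ e1⟩)
  rcases le_total (finrank K T₀) (finrank K T₁) with hle | hle
  · exact hmain 1 T₁ inferInstance h1 (by simpa using h1') (by omega)
  · exact hmain 0 T₀ inferInstance h0 (by simpa using h0') (by omega)

omit [Module K V] [IsScalarTower K (LaurentSeries K) V]
  [FiniteDimensional (LaurentSeries K) V] in
/-- Additivity of the value sets of an anisotropic form. -/
theorem polar_I_of_aniso {Q : QuadraticMap (LaurentSeries K) V (LaurentSeries K)}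
    (hQ : ∀ x, Q x = 0 → x = 0) {k : ℤ} {x y : V} (hx : I k (Q x)) (hy : I k (Q y)) :
    I k (polar Q x y) := by
  by_contra hcon
  have hp0 : polar Q x y ≠ 0 := fun h => hcon (h ▸ I_zero k)
  obtain ⟨m, hm, hm'⟩ := exists_I_coeff_ne hp0
  have hmk : m < k := by
    by_contra h
    exact hcon (hm.mono (not_lt.1 h))
  have hx' : I k (Q ((T (k - 1 - m) : LaurentSeries K) • x)) :=
    (I_map_T_smul hx).mono (by linarith)
  have hp' : I (k - 1) (polar Q ((T (k - 1 - m) : LaurentSeries K) • x) y) := by
    have := I_polar_T_smul_left (m := k - 1 - m) hm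
    rwa [sub_add_cancel] at this
  have hc' : (polar Q ((T (k - 1 - m) : LaurentSeries K) • x) y).coeff (k - 1) ≠ 0 := by
    rw [coeff_polar_T_smul_left]
    have : k - 1 - (k - 1 - m) = m := by ring
    rwa [this]
  let Q' : QuadraticMap (LaurentSeries K) V (Unit → LaurentSeries K) :=
    (LinearMap.single (LaurentSeries K) (fun _ : Unit => LaurentSeries K) ()).compQuadraticMap Q
  have hQ' : ∀ x i, Q' x i = Q x := fun x i => by
    change (LinearMap.single (LaurentSeries K) (fun _ : Unit => LaurentSeries K) () (Q x)) i = _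
    simp
  have hpQ' : ∀ x y i, polar Q' x y i = polar Q x y := fun x y i => by
    simp only [polar, Pi.sub_apply, hQ']
  obtain ⟨w, hw, hw0⟩ := smooth_zero Q' (fun _ => k - 1)
    ((T (k - 1 - m) : LaurentSeries K) • x) (fun _ => y)
    (fun i => by rw [hQ', sub_add_cancel]; exact hx')
    (fun i j => by rw [hQ']; exact hy.mono (by linarith))
    (fun i j => by rw [hpQ']; exact hp')
    (fun i j l => by
      rw [hpQ', polar_self, two_smul]
      exact (hy.mono (by linarith)).add (hy.mono (by linarith)))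
    (by
      rw [Matrix.det_unique]
      change (polar Q' _ _ _).coeff (k - 1) ≠ 0
      rw [hpQ']
      exact hc')
  exact hw (hQ w (by rw [← hQ' w (), hw0]; rfl))

omit [Module K V] [IsScalarTower K (LaurentSeries K) V]
  [FiniteDimensional (LaurentSeries K) V] in
theorem valFil_single {Q : QuadraticMap (LaurentSeries K) V (LaurentSeries K)}
    (hQ : ∀ x, Q x = 0 → x = 0) : ValFil (K := K) V (fun k => {x | I k (Q x)}) where
  zero k := by
    change I k (Q 0)
    rw [QuadraticMap.map_zero]; exact I_zero k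
  add k x y hx hy := by
    change I k (Q (x + y))
    have e1 : Q (x + y) = Q x + Q y + polar Q x y := by rw [polar]; ring
    rw [e1]
    exact (I.add hx hy).add (polar_I_of_aniso hQ hx hy)
  smul a m k x ha hx := by
    change I _ (Q (a • x))
    rw [QuadraticMap.map_smul]; exact (ha.mul ha).mul hx
  mono k l x hkl hx := I.mono hx hkl
  exh x := exists_I (Q x)
  sep x hx := hQ x (eq_zero_of_I hx)

theorem kSys_of_two {N : ℕ} {U W : Type*} [AddCommGroup U] [Module (LaurentSeries K) U]
    [Module K U] [IsScalarTower K (LaurentSeries K) U] [FiniteDimensional (LaurentSeries K) U]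
    [AddCommGroup W] [Module (LaurentSeries K) W]
    [Module K W] [IsScalarTower K (LaurentSeries K) W] [FiniteDimensional (LaurentSeries K) W]
    {Q : QuadraticMap (LaurentSeries K) U (LaurentSeries K)}
    {R : QuadraticMap (LaurentSeries K) W (LaurentSeries K)}
    (hQ : ∀ z, Q z = 0 → z = 0) (hR : ∀ v, R v = 0 → v = 0)
    (hN : N = finrank (LaurentSeries K) U + finrank (LaurentSeries K) W) :
    KSys K N := by
  obtain ⟨S₀, S₁, _, _, hS0, hS0', hS1, hS1', hcS⟩ := (valFil_single hQ).count
  obtain ⟨T₀, T₁, _, _, hT0, hT0', hT1, hT1', hcT⟩ := (valFil_single hR).count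
  have hmain : ∀ (k : ℤ) (D : Submodule K U) (E : Submodule K W), FiniteDimensional K D →
      FiniteDimensional K E → (∀ x ∈ D, I k (Q x)) →
      (∀ x ∈ D, I (k + 1) (Q x) → x = 0) → (∀ x ∈ E, I k (R x)) →
      (∀ x ∈ E, I (k + 1) (R x) → x = 0) →
      N ≤ 2 * (finrank K D + finrank K E) → KSys K N := by
    intro k D E _ _ hD hD' hE hE' hfin
    refine KSys.of_prod ((coeffQ k Q).comp D.subtype)
      ((coeffQ k R).comp E.subtype) (fun x hx => ?_) (fun x hx => ?_) hfin
    · change (Q (x : U)).coeff k = 0 at hx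
      exact Subtype.ext (hD' _ x.2 ((hD _ x.2).succ hx))
    · change (R (x : W)).coeff k = 0 at hx
      exact Subtype.ext (hE' _ x.2 ((hE _ x.2).succ hx))
  rcases le_total (finrank K S₀ + finrank K T₀) (finrank K S₁ + finrank K T₁) with hle | hle
  · exact hmain 1 S₁ T₁ inferInstance inferInstance hS1 hS1' hT1 hT1' (by omega)
  · exact hmain 0 S₀ T₀ inferInstance inferInstance hS0 hS0' hT0 hT0' (by omega)

theorem kSys_of_radical (hAB : Aniso A B) (hrad : ∀ x, B x = 0 → ∀ y, polar B x y = 0) :
    KSys K (finrank (LaurentSeries K) V) := by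
  let Z : Submodule (LaurentSeries K) V :=
    { carrier := {x | B x = 0}
      zero_mem' := QuadraticMap.map_zero B
      add_mem' := fun {x y} hx hy => by
        change B (x + y) = 0
        have e1 : B (x + y) = B x + B y + polar B x y := by rw [polar]; ring
        rw [e1, hrad x hx, show B x = 0 from hx, show B y = 0 from hy, add_zero, add_zero]
      smul_mem' := fun c x hx => by
        change B (c • x) = 0
        rw [QuadraticMap.map_smul, show B x = 0 from hx, smul_zero] }
  obtain ⟨V', hV'⟩ := exists_isCompl Z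
  have hZ : ∀ z : Z, A.comp Z.subtype z = 0 → z = 0 := fun z hz =>
    Subtype.ext (hAB z hz z.2)
  have hV : ∀ v : V', B.comp V'.subtype v = 0 → v = 0 := fun v hv => by
    have : (v : V) ∈ Z ⊓ V' := ⟨hv, v.2⟩
    rw [hV'.inf_eq_bot, Submodule.mem_bot] at this
    exact Subtype.ext this
  exact kSys_of_two hZ hV (Submodule.finrank_add_eq_of_isCompl hV').symm

/-- An anisotropic pair of forms in `n` variables over the Laurent series field yields one in at
least `n / 2` variables over the residue field. -/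
theorem kSys_of_aniso (hAB : Aniso A B) : KSys K (finrank (LaurentSeries K) V) := by
  by_cases hno : ∀ A' B' : QuadraticMap (LaurentSeries K) V (LaurentSeries K),
      Aniso A' B' → ¬ Good A' B'
  · obtain ⟨A', B', hAB', hray⟩ := exists_ray hno hAB
    exact kSys_of_radical hAB' (ray_end hAB' hray)
  · push Not at hno
    obtain ⟨A', B', hAB', hg⟩ := hno
    exact hg.kSys hAB'

end

theorem kSys_main {n : ℕ} (q : QuadraticMap (LaurentSeries K) (Fin n → LaurentSeries K)
    (Fin 2 → LaurentSeries K)) (hq : ∀ x, q x = 0 → x = 0) : KSys K n := by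
  have h : Aniso (K := K) (V := Fin n → LaurentSeries K)
      ((LinearMap.proj 0 : (Fin 2 → LaurentSeries K) →ₗ[LaurentSeries K]
        LaurentSeries K).compQuadraticMap q)
      ((LinearMap.proj 1 : (Fin 2 → LaurentSeries K) →ₗ[LaurentSeries K]
        LaurentSeries K).compQuadraticMap q) := by
    intro x h0 h1
    apply hq
    funext i
    fin_cases i
    · exact h0
    · exact h1
  have := kSys_of_aniso h
  simpa using this

end Pool.Agent.Lib.MP_25ed17_al
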