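import Mathlib

/-!
Laurent series: divisibility by powers of the variable, leading coefficients, and a fixed
point lemma.
-/

namespace Pool.Agent.Lib.MP_25ed17_al

open HahnSeries

variable {K : Type*} [Field K]

/-- The Laurent series `a` is divisible by the `k`-th power of the variable (in the ring of
power series, up to scaling). -/
def I (k : ℤ) (a : LaurentSeries K) : Prop := ∀ m, m < k → a.coeff m = 0

/-- The `k`-th power of the variable. -/
noncomputable def T (k : ℤ) : LaurentSeries K := single k 1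

theorem T_mul (k l : ℤ) : (T k : LaurentSeries K) * T l = T (k + l) := by
  simp [T, single_mul_single]

theorem T_zero : (T 0 : LaurentSeries K) = 1 := rfl

theorem T_ne_zero (k : ℤ) : (T k : LaurentSeries K) ≠ 0 := by
  simp [T]

theorem coeff_T_mul (k : ℤ) (a : LaurentSeries K) (m : ℤ) :
    (T k * a).coeff m = a.coeff (m - k) := by
  rw [T, coeff_single_mul, one_mul]

theorem T_neg_mul (k : ℤ) (a : LaurentSeries K) : T (-k) * (T k * a) = a := by
  rw [← mul_assoc, T_mul, neg_add_cancel, T_zero, one_mul]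

theorem I_zero (k : ℤ) : I k (0 : LaurentSeries K) := fun m _ => by simp

theorem I.add {k : ℤ} {a b : LaurentSeries K} (ha : I k a) (hb : I k b) : I k (a + b) :=
  fun m hm => by rw [HahnSeries.coeff_add, ha m hm, hb m hm, add_zero]

theorem I.neg {k : ℤ} {a : LaurentSeries K} (ha : I k a) : I k (-a) :=
  fun m hm => by rw [HahnSeries.coeff_neg, ha m hm, neg_zero]

theorem I.sub {k : ℤ} {a b : LaurentSeries K} (ha : I k a) (hb : I k b) : I k (a - b) := by
  rw [sub_eq_add_neg]; exact ha.add hb.neg

theorem I.mono {k l : ℤ} {a : LaurentSeries K} (ha : I k a) (h : l ≤ k) : I l a :=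
  fun m hm => ha m (lt_of_lt_of_le hm h)

theorem I.sum {ι : Type*} {k : ℤ} {s : Finset ι} {f : ι → LaurentSeries K}
    (h : ∀ i ∈ s, I k (f i)) : I k (∑ i ∈ s, f i) := by
  classical
  induction s using Finset.induction_on with
  | empty => rw [Finset.sum_empty]; exact I_zero k
  | insert a s ha ih =>
    rw [Finset.sum_insert ha]
    exact (h a (Finset.mem_insert_self _ _)).add
      (ih fun i hi => h i (Finset.mem_insert_of_mem hi))

theorem I.succ {k : ℤ} {a : LaurentSeries K} (ha : I k a) (h : a.coeff k = 0) :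
    I (k + 1) a := fun m hm => by
  rcases lt_or_eq_of_le (Int.lt_add_one_iff.1 hm) with h1 | h1
  · exact ha m h1
  · rw [h1]; exact h

theorem I_T_mul {k l : ℤ} {a : LaurentSeries K} : I (k + l) (T k * a) ↔ I l a := by
  constructor
  · intro h m hm
    have := h (m + k) (by linarith)
    rwa [coeff_T_mul, add_sub_cancel_right] at this
  · intro h m hm
    rw [coeff_T_mul]
    exact h _ (by linarith)

theorem I.exists_ps {k : ℤ} {a : LaurentSeries K} (ha : I k a) :
    ∃ p : PowerSeries K, a = T k * ofPowerSeries ℤ K p ∧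
      PowerSeries.constantCoeff p = a.coeff k := by
  refine ⟨PowerSeries.mk fun n => a.coeff (k + n), ?_, ?_⟩
  · ext m
    rw [coeff_T_mul, PowerSeries.coeff_coe]
    split_ifs with h
    · exact ha m (by linarith)
    · rw [PowerSeries.coeff_mk]
      congr 1
      have : ((m - k).natAbs : ℤ) = m - k := Int.natAbs_of_nonneg (not_lt.1 h)
      rw [this]; ring
  · rw [← PowerSeries.coeff_zero_eq_constantCoeff_apply, PowerSeries.coeff_mk]
    simp

theorem I_ps (p : PowerSeries K) : I 0 (ofPowerSeries ℤ K p) := fun m hm => by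
  rw [PowerSeries.coeff_coe, if_pos hm]

theorem coeff_ps_zero (p : PowerSeries K) :
    (ofPowerSeries ℤ K p).coeff 0 = PowerSeries.constantCoeff p := by
  rw [PowerSeries.coeff_coe, if_neg (lt_irrefl 0)]
  simp

theorem I.mul {k l : ℤ} {a b : LaurentSeries K} (ha : I k a) (hb : I l b) :
    I (k + l) (a * b) := by
  obtain ⟨p, rfl, -⟩ := ha.exists_ps
  obtain ⟨q, rfl, -⟩ := hb.exists_ps
  have : T k * ofPowerSeries ℤ K p * (T l * ofPowerSeries ℤ K q) =
      T (k + l) * ofPowerSeries ℤ K (p * q) := by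
    rw [map_mul, ← T_mul]; ring
  rw [this]
  have h := (I_T_mul (k := k + l) (l := 0)).2 (I_ps (p * q))
  rwa [add_zero] at h

theorem coeff_mul_I {k l : ℤ} {a b : LaurentSeries K} (ha : I k a) (hb : I l b) :
    (a * b).coeff (k + l) = a.coeff k * b.coeff l := by
  obtain ⟨p, hp, hp'⟩ := ha.exists_ps
  obtain ⟨q, hq, hq'⟩ := hb.exists_ps
  have : a * b = T (k + l) * ofPowerSeries ℤ K (p * q) := by
    rw [hp, hq, map_mul, ← T_mul]; ring
  rw [this, coeff_T_mul, sub_self, coeff_ps_zero, map_mul, hp', hq']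

theorem I_C (c : K) : I 0 (C c : LaurentSeries K) := fun m hm => by
  rw [C_apply, coeff_single_of_ne (ne_of_lt hm)]

theorem coeff_C_mul' (c : K) (a : LaurentSeries K) (m : ℤ) :
    (C c * a).coeff m = c * a.coeff m := by
  rw [C_mul_eq_smul, HahnSeries.coeff_smul, smul_eq_mul]

theorem I.C_mul {k : ℤ} {a : LaurentSeries K} (ha : I k a) (c : K) : I k (C c * a) :=
  fun m hm => by rw [coeff_C_mul', ha m hm, mul_zero]

theorem I_T (k : ℤ) : I k (T k : LaurentSeries K) := fun m hm => by
  rw [T, coeff_single_of_ne (ne_of_lt hm)]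

theorem exists_I (a : LaurentSeries K) : ∃ k, I k a := by
  by_cases h : a = 0
  · exact ⟨0, h ▸ I_zero 0⟩
  · exact ⟨a.order, fun m hm => coeff_eq_zero_of_lt_order hm⟩

theorem eq_zero_of_I {a : LaurentSeries K} (h : ∀ k : ℕ, I k a) : a = 0 := by
  ext m
  rw [HahnSeries.coeff_zero]
  exact h (m.toNat + 1) m (by
    have := Int.self_le_toNat m
    push_cast; linarith)

theorem exists_I_coeff_ne {a : LaurentSeries K} (h : a ≠ 0) : ∃ k, I k a ∧ a.coeff k ≠ 0 :=
  ⟨a.order, fun _ hm => coeff_eq_zero_of_lt_order hm, coeff_order_eq_zero.not.2 h⟩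

/-- A contracting self-map of the vectors divisible by the variable has a fixed point. -/
theorem exists_fixed {ι : Type*} (Φ : (ι → LaurentSeries K) → (ι → LaurentSeries K))
    (h1 : ∀ s, (∀ j, I 1 (s j)) → ∀ j, I 1 (Φ s j))
    (h2 : ∀ n : ℕ, ∀ s s', (∀ j, I 1 (s j)) → (∀ j, I 1 (s' j)) →
      (∀ j, I (n + 1) (s j - s' j)) → ∀ j, I (n + 2) (Φ s j - Φ s' j)) :
    ∃ s, (∀ j, I 1 (s j)) ∧ Φ s = s := by
  let f : ℕ → (ι → LaurentSeries K) := fun n => Φ^[n] 0
  have hf0 : ∀ n j, I 1 (f n j) := by
    intro n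
    induction n with
    | zero => intro j; exact I_zero 1
    | succ n ih =>
      have : f (n + 1) = Φ (f n) := Function.iterate_succ_apply' Φ n 0
      rw [this]
      exact h1 _ ih
  have hf1 : ∀ (n : ℕ) j, I (n + 1) (f (n + 1) j - f n j) := by
    intro n
    induction n with
    | zero =>
      intro j
      have h0 : f 0 j = 0 := rfl
      rw [h0, sub_zero]
      exact hf0 1 j
    | succ n ih =>
      intro j
      have e1 : f (n + 1 + 1) = Φ (f (n + 1)) := Function.iterate_succ_apply' Φ (n + 1) 0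
      have e2 : f (n + 1) = Φ (f n) := Function.iterate_succ_apply' Φ n 0
      rw [e1]
      conv => rw [e2]
      have := h2 n (Φ (f n)) (f n) (by rw [← e2]; exact hf0 (n + 1)) (hf0 n)
        (by rw [← e2]; exact ih) j
      push_cast
      rw [add_assoc]
      exact this
  have hf2 : ∀ n k : ℕ, ∀ j, I (n + 1) (f (n + k) j - f n j) := by
    intro n k
    induction k with
    | zero => intro j; rw [add_zero, sub_self]; exact I_zero _
    | succ k ih =>
      intro j
      have e : f (n + (k + 1)) j - f n j =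
          (f (n + k + 1) j - f (n + k) j) + (f (n + k) j - f n j) := by
        rw [← add_assoc]; ring
      rw [e]
      refine I.add ((hf1 (n + k) j).mono ?_) (ih j)
      push_cast; linarith
  let s : ι → LaurentSeries K := fun j =>
    ofPowerSeries ℤ K (PowerSeries.mk fun n => (f n j).coeff n)
  have hs : ∀ (n : ℕ) j, I (n + 1) (s j - f n j) := by
    intro n j m hm
    rw [HahnSeries.coeff_sub, PowerSeries.coeff_coe]
    split_ifs with h
    · rw [zero_sub, hf0 n j m (by linarith), neg_zero]
    · rw [PowerSeries.coeff_mk]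
      have hm' : ((m.natAbs : ℕ) : ℤ) = m := Int.natAbs_of_nonneg (not_lt.1 h)
      rw [hm']
      obtain ⟨k, hk⟩ : ∃ k, n = m.natAbs + k := Nat.exists_eq_add_of_le (by
        have : (m.natAbs : ℤ) < n + 1 := by rw [hm']; exact hm
        omega)
      have := hf2 m.natAbs k j m (by rw [hm']; linarith)
      rw [← hk, HahnSeries.coeff_sub] at this
      rw [← neg_sub, this, neg_zero]
  have hs1 : ∀ j, I 1 (s j) := by
    intro j
    have h0 : f 0 j = 0 := rfl
    have := hs 0 j
    rw [h0, sub_zero] at this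
    simpa using this
  refine ⟨s, hs1, ?_⟩
  funext j
  rw [← sub_eq_zero]
  refine eq_zero_of_I fun k => ?_
  have e : Φ s j - s j = (Φ s j - Φ (f k) j) - (s j - f (k + 1) j) := by
    have : f (k + 1) = Φ (f k) := Function.iterate_succ_apply' Φ k 0
    rw [this]; ring
  rw [e]
  refine I.sub ((h2 k s (f k) hs1 (hf0 k) (hs k) j).mono (by linarith))
    ((hs (k + 1) j).mono (by push_cast; linarith))

end Pool.Agent.Lib.MP_25ed17_al
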