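import Pool.Agent.Lib.MP_25ed17_al.Count

/-!
Over a field in which `-1` is a sum of squares, some positive multiple of every system of
quadratic forms vanishes on a half-dimensional subspace; and the doubling construction over the
Laurent series field.
-/

namespace Pool.Agent.Lib.MP_25ed17_al

open HahnSeries QuadraticMap Module

section

variable {F : Type*} [Field F]

theorem exists_skew {c : F} (hc : IsSumSq c) : ∃ m : ℕ, 0 < m ∧
    ∃ B : Matrix (Fin m) (Fin m) F, B.transpose = -B ∧ B * B = (-c) • 1 := by
  induction hc with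
  | zero => exact ⟨1, one_pos, 0, by simp, by simp⟩
  | @sq_add a s hs ih =>
    obtain ⟨m, hm, B, hB, hB2⟩ := ih
    let B' : Matrix (Fin m ⊕ Fin m) (Fin m ⊕ Fin m) F :=
      Matrix.fromBlocks B (-(a • 1)) (a • 1) (-B)
    have h1 : B'.transpose = -B' := by
      simp only [B', Matrix.fromBlocks_transpose, Matrix.fromBlocks_neg, Matrix.transpose_neg,
        Matrix.transpose_smul, Matrix.transpose_one, hB, neg_neg]
    have h2 : B' * B' = (-(a * a + s)) • 1 := by
      simp only [B', Matrix.fromBlocks_multiply]
      rw [← Matrix.fromBlocks_one, Matrix.fromBlocks_smul]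
      congr 1
      · simp only [Matrix.neg_mul, Matrix.smul_mul, Matrix.mul_smul, Matrix.one_mul, hB2]
        rw [smul_neg, smul_smul, neg_add, add_smul, neg_smul, neg_smul]
        abel
      · simp
      · simp
      · simp only [Matrix.neg_mul, Matrix.mul_neg, Matrix.smul_mul, Matrix.mul_smul,
          Matrix.one_mul, hB2, neg_neg]
        rw [smul_smul, neg_add, add_smul, neg_smul, neg_smul]
    refine ⟨m + m, by omega, Matrix.reindex finSumFinEquiv finSumFinEquiv B', ?_, ?_⟩
    · rw [Matrix.transpose_reindex, h1]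
      rfl
    · have := Matrix.submatrix_mul_equiv B' B' finSumFinEquiv.symm finSumFinEquiv.symm
        finSumFinEquiv.symm
      simp only [Matrix.reindex_apply]
      rw [this, h2]
      ext i j
      simp [Matrix.one_apply]

theorem exists_metabolic {n r : ℕ} (hF : IsSumSq (-1 : F))
    (q : QuadraticMap F (Fin n → F) (Fin r → F)) :
    ∃ m : ℕ, 0 < m ∧ ∃ W : Submodule F (Fin m → Fin n → F),
      m * n ≤ 2 * finrank F W ∧ ∀ x ∈ W, ∑ i, q (x i) = 0 := by
  obtain ⟨m, hm, B, hB, hB2⟩ := exists_skew hF
  rw [neg_neg, one_smul] at hB2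
  have hBB : ∀ i k, ∑ j, B i j * B k j = -(1 : Matrix (Fin m) (Fin m) F) i k := by
    intro i k
    have h : B * B.transpose = -1 := by rw [hB, Matrix.mul_neg, hB2]
    have := congrFun (congrFun h i) k
    rw [Matrix.mul_apply] at this
    simpa using this
  obtain ⟨β, hβ⟩ := LinearMap.BilinMap.toQuadraticMap_surjective (R := F)
    (M := Fin n → F) (N := Fin r → F) q
  let φ : (Fin m → Fin n → F) →ₗ[F] (Fin (m + m) → Fin n → F) :=
    { toFun := fun y => Fin.append y (fun j => ∑ i, B i j • y i)
      map_add' := fun y z => by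
        funext j
        refine Fin.addCases (fun j => ?_) (fun j => ?_) j
        · simp [Fin.append_left]
        · rw [Pi.add_apply, Fin.append_right, Fin.append_right, Fin.append_right,
            ← Finset.sum_add_distrib]
          exact Finset.sum_congr rfl fun i _ => smul_add _ _ _
      map_smul' := fun c y => by
        funext j
        refine Fin.addCases (fun j => ?_) (fun j => ?_) j
        · simp [Fin.append_left]
        · rw [RingHom.id_apply, Pi.smul_apply, Fin.append_right, Fin.append_right,
            Finset.smul_sum]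
          exact Finset.sum_congr rfl fun i _ => smul_comm (B i j) c (y i) }
  have hφ : Function.Injective φ := by
    intro y z h
    funext j
    have := congrFun h (Fin.castAdd m j)
    simpa [φ, Fin.append_left] using this
  refine ⟨m + m, by omega, LinearMap.range φ, ?_, ?_⟩
  · rw [LinearMap.finrank_range_of_inj hφ]
    simp only [finrank_pi_fintype, finrank_self, Fintype.card_fin,
      Finset.sum_const, Finset.card_univ, smul_eq_mul, mul_one]
    rw [two_mul, add_mul]
  · rintro x ⟨y, rfl⟩
    rw [Fin.sum_univ_add]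
    have e1 : ∀ j, φ y (Fin.castAdd m j) = y j := fun j => by simp [φ, Fin.append_left]
    have e2 : ∀ j, φ y (Fin.natAdd m j) = ∑ i, B i j • y i := fun j =>
      Fin.append_right y (fun j => ∑ i, B i j • y i) j
    have e3 : ∀ x, q x = β x x := fun x => by rw [← hβ]; rfl
    simp only [e1, e2, e3]
    have e4 : ∀ j, β (∑ i, B i j • y i) (∑ i, B i j • y i) =
        ∑ i, ∑ k, (B i j * B k j) • β (y i) (y k) := by
      intro j
      simp only [map_sum, map_smul, LinearMap.sum_apply, LinearMap.smul_apply, Finset.smul_sum,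
        smul_smul]
      rw [Finset.sum_comm]
      refine Finset.sum_congr rfl fun i _ => Finset.sum_congr rfl fun k _ => ?_
      rw [mul_comm]
    simp only [e4]
    rw [Finset.sum_comm]
    have e5 : ∀ i, ∑ j, ∑ k, (B i j * B k j) • β (y i) (y k) = - β (y i) (y i) := by
      intro i
      rw [Finset.sum_comm]
      have : ∀ k, ∑ j, (B i j * B k j) • β (y i) (y k) =
          (-(1 : Matrix (Fin m) (Fin m) F) i k) • β (y i) (y k) := by
        intro k
        rw [← Finset.sum_smul, hBB]
      simp only [this]
      rw [Finset.sum_eq_single i]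
      · simp
      · intro k _ hk
        rw [Matrix.one_apply_ne hk.symm]
        simp
      · intro h; exact absurd (Finset.mem_univ i) h
    simp only [e5]
    rw [Finset.sum_neg_distrib, add_neg_cancel]

end

variable {K : Type*} [Field K]

/-- The quadratic map over the Laurent series field with given constant coefficients. -/
noncomputable def extMap {n r : ℕ} (b : Fin n → Fin n → Fin r → K) :
    QuadraticMap (LaurentSeries K) (Fin n → LaurentSeries K) (Fin r → LaurentSeries K) :=
  LinearMap.BilinMap.toQuadraticMap (LinearMap.mk₂ (LaurentSeries K)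
    (fun x y l => ∑ i, ∑ j, C (b i j l) * (x i * y j))
    (fun x x' y => by
      funext l
      simp only [Pi.add_apply, ← Finset.sum_add_distrib]
      exact Finset.sum_congr rfl fun i _ => Finset.sum_congr rfl fun j _ => by ring)
    (fun c x y => by
      funext l
      simp only [Pi.smul_apply, smul_eq_mul, Finset.mul_sum]
      exact Finset.sum_congr rfl fun i _ => Finset.sum_congr rfl fun j _ => by ring)
    (fun x y y' => by
      funext l
      simp only [Pi.add_apply, ← Finset.sum_add_distrib]
      exact Finset.sum_congr rfl fun i _ => Finset.sum_congr rfl fun j _ => by ring)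
    (fun c x y => by
      funext l
      simp only [Pi.smul_apply, smul_eq_mul, Finset.mul_sum]
      exact Finset.sum_congr rfl fun i _ => Finset.sum_congr rfl fun j _ => by ring))

theorem extMap_apply {n r : ℕ} (b : Fin n → Fin n → Fin r → K) (x : Fin n → LaurentSeries K)
    (l : Fin r) : extMap b x l = ∑ i, ∑ j, C (b i j l) * (x i * x j) := rfl

theorem I_extMap {n r : ℕ} (b : Fin n → Fin n → Fin r → K) {x : Fin n → LaurentSeries K} {k : ℤ}
    (hx : ∀ i, I k (x i)) (l : Fin r) : I (k + k) (extMap b x l) := by
  rw [extMap_apply]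
  exact I.sum fun i _ => I.sum fun j _ => ((hx i).mul (hx j)).C_mul _

theorem coeff_extMap {n r : ℕ} (b : Fin n → Fin n → Fin r → K) {x : Fin n → LaurentSeries K}
    {k : ℤ} (hx : ∀ i, I k (x i)) (l : Fin r) : (extMap b x l).coeff (k + k) =
      ∑ i, ∑ j, b i j l * ((x i).coeff k * (x j).coeff k) := by
  rw [extMap_apply, HahnSeries.coeff_sum]
  refine Finset.sum_congr rfl fun i _ => ?_
  rw [HahnSeries.coeff_sum]
  refine Finset.sum_congr rfl fun j _ => ?_
  rw [coeff_C_mul', coeff_mul_I (hx i) (hx j)]

theorem exists_double {n r : ℕ} (q : QuadraticMap K (Fin n → K) (Fin r → K))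
    (hq : ∀ x, q x = 0 → x = 0) :
    ∃ Q : QuadraticMap (LaurentSeries K) (Fin (2 * n) → LaurentSeries K)
      (Fin r → LaurentSeries K), ∀ x, Q x = 0 → x = 0 := by
  obtain ⟨β, hβ⟩ := LinearMap.BilinMap.toQuadraticMap_surjective (R := K)
    (M := Fin n → K) (N := Fin r → K) q
  let e : Fin n → (Fin n → K) := fun i j => if i = j then 1 else 0
  let b : Fin n → Fin n → Fin r → K := fun i j l => β (e i) (e j) l
  have hb : ∀ (v : Fin n → K) l, q v l = ∑ i, ∑ j, b i j l * (v i * v j) := by
    intro v l
    have h0 : q v = β v v := by rw [← hβ]; rfl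
    have h1 : β v = ∑ i, v i • β (e i) := LinearMap.pi_apply_eq_sum_univ β v
    rw [h0, h1, LinearMap.sum_apply, Finset.sum_apply]
    refine Finset.sum_congr rfl fun i _ => ?_
    rw [LinearMap.smul_apply, LinearMap.pi_apply_eq_sum_univ (β (e i)) v, Finset.smul_sum,
      Finset.sum_apply]
    refine Finset.sum_congr rfl fun j _ => ?_
    simp only [Pi.smul_apply, smul_eq_mul]
    change v i * (v j * b i j l) = _
    ring
  have hstep : ∀ (k : ℤ) (x y : Fin n → LaurentSeries K),
      (∀ l, extMap b x l + T 1 * extMap b y l = 0) →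
      (∀ i, I k (x i)) → (∀ i, I k (y i)) → (∀ i, I (k + 1) (x i)) ∧ (∀ i, I (k + 1) (y i)) := by
    intro k x y h hx hy
    have hx' : ∀ i, I (k + 1) (x i) := by
      have h0 : (fun i => (x i).coeff k) = 0 := by
        apply hq
        funext l
        rw [hb, ← coeff_extMap b hx, Pi.zero_apply]
        have h1 : extMap b x l = -(T 1 * extMap b y l) := eq_neg_of_add_eq_zero_left (h l)
        rw [h1, HahnSeries.coeff_neg, coeff_T_mul, I_extMap b hy l _ (by linarith), neg_zero]
      exact fun i => (hx i).succ (congrFun h0 i)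
    refine ⟨hx', ?_⟩
    have h0 : (fun i => (y i).coeff k) = 0 := by
      apply hq
      funext l
      rw [hb, ← coeff_extMap b hy, Pi.zero_apply]
      have h1 : T 1 * extMap b y l = -extMap b x l := eq_neg_of_add_eq_zero_right (h l)
      have h2 : (T 1 * extMap b y l).coeff (k + k + 1) = 0 := by
        rw [h1, HahnSeries.coeff_neg, I_extMap b hx' l _ (by linarith), neg_zero]
      rwa [coeff_T_mul, add_sub_cancel_right] at h2
    exact fun i => (hy i).succ (congrFun h0 i)
  have hzero : ∀ (x y : Fin n → LaurentSeries K),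
      (∀ l, extMap b x l + T 1 * extMap b y l = 0) → x = 0 ∧ y = 0 := by
    intro x y h
    obtain ⟨k₀, hk₀⟩ : ∃ k₀ : ℤ, (∀ i, I k₀ (x i)) ∧ (∀ i, I k₀ (y i)) := by
      choose kx hkx using fun i => exists_I (x i)
      choose ky hky using fun i => exists_I (y i)
      rcases Nat.eq_zero_or_pos n with hn | hn
      · subst hn
        exact ⟨0, fun i => i.elim0, fun i => i.elim0⟩
      · have : Nonempty (Fin n) := ⟨⟨0, hn⟩⟩
        obtain ⟨i₀, -, hi₀⟩ := Finset.exists_min_image Finset.univ (fun i => min (kx i) (ky i))
          Finset.univ_nonempty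
        refine ⟨min (kx i₀) (ky i₀), fun i => (hkx i).mono ?_, fun i => (hky i).mono ?_⟩
        · exact (hi₀ i (Finset.mem_univ i)).trans (min_le_left _ _)
        · exact (hi₀ i (Finset.mem_univ i)).trans (min_le_right _ _)
    have hall : ∀ j : ℕ, (∀ i, I (k₀ + j) (x i)) ∧ (∀ i, I (k₀ + j) (y i)) := by
      intro j
      induction j with
      | zero => simpa using hk₀
      | succ j ih =>
        have := hstep _ x y h ih.1 ih.2
        push_cast
        rwa [← add_assoc]
    have hge : ∀ k : ℕ, ∃ j : ℕ, (k : ℤ) ≤ k₀ + j := fun k =>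
      ⟨k + k₀.natAbs, by omega⟩
    constructor
    · funext i
      refine eq_zero_of_I fun k => ?_
      obtain ⟨j, hj⟩ := hge k
      exact ((hall j).1 i).mono hj
    · funext i
      refine eq_zero_of_I fun k => ?_
      obtain ⟨j, hj⟩ := hge k
      exact ((hall j).2 i).mono hj
  let φ : (Fin (2 * n) → LaurentSeries K) ≃ₗ[LaurentSeries K]
      (Fin n → LaurentSeries K) × (Fin n → LaurentSeries K) :=
    LinearEquiv.ofFinrankEq _ _ (by
      rw [finrank_prod]
      simp only [finrank_fintype_fun_eq_card, Fintype.card_fin]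
      ring)
  let Q : QuadraticMap (LaurentSeries K) ((Fin n → LaurentSeries K) × (Fin n → LaurentSeries K))
      (Fin r → LaurentSeries K) :=
    (extMap b).comp (LinearMap.fst _ _ _) +
      (T 1 : LaurentSeries K) • (extMap b).comp (LinearMap.snd _ _ _)
  refine ⟨Q.comp φ.toLinearMap, fun x hx => ?_⟩
  have h1 : (φ x).1 = 0 ∧ (φ x).2 = 0 := by
    apply hzero
    intro l
    exact congrFun hx l
  exact (LinearEquiv.map_eq_zero_iff φ).1 (Prod.ext h1.1 h1.2)

end Pool.Agent.Lib.MP_25ed17_al
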