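import Pool.Agent.Lib.MP_25ed17_al.Smooth

/-!
Pairs of quadratic forms over Laurent series fields: bad pairs of vectors and their directions.
-/

namespace Pool.Agent.Lib.MP_25ed17_al

open HahnSeries QuadraticMap

variable {K : Type*} [Field K] {V : Type*} [AddCommGroup V] [Module (LaurentSeries K) V]

/-- Two quadratic forms as one quadratic map. -/
noncomputable def pair (A B : QuadraticMap (LaurentSeries K) V (LaurentSeries K)) :
    QuadraticMap (LaurentSeries K) V (Fin 2 → LaurentSeries K) :=
  (LinearMap.single (LaurentSeries K) (fun _ : Fin 2 => LaurentSeries K) 0).compQuadraticMap A +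
    (LinearMap.single (LaurentSeries K) (fun _ : Fin 2 => LaurentSeries K) 1).compQuadraticMap B

variable {A B : QuadraticMap (LaurentSeries K) V (LaurentSeries K)}

theorem pair_zero (x : V) : pair A B x 0 = A x := by
  simp [pair]

theorem pair_one (x : V) : pair A B x 1 = B x := by
  simp [pair]

theorem polar_pair_zero (x y : V) : polar (pair A B) x y 0 = polar A x y := by
  simp only [polar, Pi.sub_apply, pair_zero]

theorem polar_pair_one (x y : V) : polar (pair A B) x y 1 = polar B x y := by
  simp only [polar, Pi.sub_apply, pair_one]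

/-- The pair has no common nontrivial zero. -/
def Aniso (A B : QuadraticMap (LaurentSeries K) V (LaurentSeries K)) : Prop :=
  ∀ x, A x = 0 → B x = 0 → x = 0

/-- An anisotropic pair has no smooth zero modulo the variable. -/
theorem smooth2 (hAB : Aniso A B) (k₁ k₂ : ℤ) (z y₁ y₂ : V)
    (hAz : I (k₁ + 1) (A z)) (hBz : I (k₂ + 1) (B z))
    (hA1 : I k₁ (A y₁)) (hB1 : I k₂ (B y₁)) (hA2 : I k₁ (A y₂)) (hB2 : I k₂ (B y₂))
    (hpA1 : I k₁ (polar A z y₁)) (hpB1 : I k₂ (polar B z y₁))
    (hpA2 : I k₁ (polar A z y₂)) (hpB2 : I k₂ (polar B z y₂))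
    (hpA : I k₁ (polar A y₁ y₂)) (hpB : I k₂ (polar B y₁ y₂))
    (hdet : (polar A z y₁).coeff k₁ * (polar B z y₂).coeff k₂ -
      (polar A z y₂).coeff k₁ * (polar B z y₁).coeff k₂ ≠ 0) : False := by
  have hself : ∀ (Q : QuadraticMap (LaurentSeries K) V (LaurentSeries K)) (k : ℤ) (y : V),
      I k (Q y) → I k (polar Q y y) := by
    intro Q k y h
    rw [polar_self, two_smul]
    exact h.add h
  obtain ⟨w, hw, hQ⟩ := smooth_zero (pair A B) ![k₁, k₂] z ![y₁, y₂]
    (by
      intro i
      fin_cases i
      · change I (k₁ + 1) (pair A B z 0); rw [pair_zero]; exact hAz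
      · change I (k₂ + 1) (pair A B z 1); rw [pair_one]; exact hBz)
    (by
      intro i j
      fin_cases i <;> fin_cases j
      · change I k₁ (pair A B y₁ 0); rw [pair_zero]; exact hA1
      · change I k₁ (pair A B y₂ 0); rw [pair_zero]; exact hA2
      · change I k₂ (pair A B y₁ 1); rw [pair_one]; exact hB1
      · change I k₂ (pair A B y₂ 1); rw [pair_one]; exact hB2)
    (by
      intro i j
      fin_cases i <;> fin_cases j
      · change I k₁ (polar (pair A B) z y₁ 0); rw [polar_pair_zero]; exact hpA1
      · change I k₁ (polar (pair A B) z y₂ 0); rw [polar_pair_zero]; exact hpA2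
      · change I k₂ (polar (pair A B) z y₁ 1); rw [polar_pair_one]; exact hpB1
      · change I k₂ (polar (pair A B) z y₂ 1); rw [polar_pair_one]; exact hpB2)
    (by
      intro i j l
      fin_cases i <;> fin_cases j <;> fin_cases l
      · change I k₁ (polar (pair A B) y₁ y₁ 0); rw [polar_pair_zero]; exact hself _ _ _ hA1
      · change I k₁ (polar (pair A B) y₁ y₂ 0); rw [polar_pair_zero]; exact hpA
      · change I k₁ (polar (pair A B) y₂ y₁ 0); rw [polar_pair_zero, polar_comm]; exact hpA
      · change I k₁ (polar (pair A B) y₂ y₂ 0); rw [polar_pair_zero]; exact hself _ _ _ hA2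
      · change I k₂ (polar (pair A B) y₁ y₁ 1); rw [polar_pair_one]; exact hself _ _ _ hB1
      · change I k₂ (polar (pair A B) y₁ y₂ 1); rw [polar_pair_one]; exact hpB
      · change I k₂ (polar (pair A B) y₂ y₁ 1); rw [polar_pair_one, polar_comm]; exact hpB
      · change I k₂ (polar (pair A B) y₂ y₂ 1); rw [polar_pair_one]; exact hself _ _ _ hB2)
    (by
      rw [Matrix.det_fin_two]
      change (polar (pair A B) z y₁ 0).coeff k₁ * (polar (pair A B) z y₂ 1).coeff k₂ -
        (polar (pair A B) z y₂ 0).coeff k₁ * (polar (pair A B) z y₁ 1).coeff k₂ ≠ 0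
      rw [polar_pair_zero, polar_pair_zero, polar_pair_one, polar_pair_one]
      exact hdet)
  apply hw
  apply hAB
  · rw [← pair_zero (B := B), hQ]; rfl
  · rw [← pair_one (A := A), hQ]; rfl

theorem I_map_T_smul {Q : QuadraticMap (LaurentSeries K) V (LaurentSeries K)} {k m : ℤ} {x : V}
    (h : I k (Q x)) : I (m + m + k) (Q ((T m : LaurentSeries K) • x)) := by
  rw [QuadraticMap.map_smul, smul_eq_mul, T_mul, I_T_mul]
  exact h

theorem I_polar_T_smul_left {Q : QuadraticMap (LaurentSeries K) V (LaurentSeries K)} {k m : ℤ}
    {x y : V} (h : I k (polar Q x y)) : I (m + k) (polar Q ((T m : LaurentSeries K) • x) y) := by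
  rw [polar_smul_left, smul_eq_mul, I_T_mul]
  exact h

theorem I_polar_T_smul_right {Q : QuadraticMap (LaurentSeries K) V (LaurentSeries K)} {k m : ℤ}
    {x y : V} (h : I k (polar Q x y)) : I (m + k) (polar Q x ((T m : LaurentSeries K) • y)) := by
  rw [polar_smul_right, smul_eq_mul, I_T_mul]
  exact h

theorem coeff_polar_T_smul_left {Q : QuadraticMap (LaurentSeries K) V (LaurentSeries K)}
    {m n : ℤ} {x y : V} : (polar Q ((T m : LaurentSeries K) • x) y).coeff n = (polar Q x y).coeff (n - m) := by
  rw [polar_smul_left, smul_eq_mul, coeff_T_mul]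

theorem coeff_polar_T_smul_right {Q : QuadraticMap (LaurentSeries K) V (LaurentSeries K)}
    {m n : ℤ} {x y : V} : (polar Q x ((T m : LaurentSeries K) • y)).coeff n = (polar Q x y).coeff (n - m) := by
  rw [polar_smul_right, smul_eq_mul, coeff_T_mul]

/-- The core lemma. -/
theorem core (hAB : Aniso A B) (l : ℤ) (f f' : Bool → V)
    (hAf : ∀ b, I l (A (f b))) (hBf : ∀ b, I l (B (f b)))
    (hpAf : I (l - 1) (polar A (f false) (f true)))
    (hne : (polar A (f false) (f true)).coeff (l - 1) ≠ 0)
    (hpBf : I l (polar B (f false) (f true)))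
    (hAf' : ∀ b, I (l - 1) (A (f' b))) (hBf' : ∀ b, I l (B (f' b)))
    (hpAf' : I (l - 1) (polar A (f' false) (f' true)))
    (hpBf' : I (l - 1) (polar B (f' false) (f' true)))
    (hne' : (polar B (f' false) (f' true)).coeff (l - 1) ≠ 0) : False := by
  -- symmetric versions
  have hpA : ∀ b, I (l - 1) (polar A (f b) (f !b)) := by
    intro b; cases b
    · exact hpAf
    · rw [polar_comm]; exact hpAf
  have hneA : ∀ b, (polar A (f b) (f !b)).coeff (l - 1) ≠ 0 := by
    intro b; cases b
    · exact hne
    · rw [polar_comm]; exact hne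
  have hpB : ∀ b, I l (polar B (f b) (f !b)) := by
    intro b; cases b
    · exact hpBf
    · rw [polar_comm]; exact hpBf
  have hpA' : ∀ b, I (l - 1) (polar A (f' b) (f' !b)) := by
    intro b; cases b
    · exact hpAf'
    · rw [polar_comm]; exact hpAf'
  have hpB' : ∀ b, I (l - 1) (polar B (f' b) (f' !b)) := by
    intro b; cases b
    · exact hpBf'
    · rw [polar_comm]; exact hpBf'
  have hneB' : ∀ b, (polar B (f' b) (f' !b)).coeff (l - 1) ≠ 0 := by
    intro b; cases b
    · exact hne'
    · rw [polar_comm]; exact hne'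
  let P : ℕ → Prop := fun j => ∀ b b', I (l - 1 - j) (polar A (f b) (f' b')) ∧
    I (l - 1 - j) (polar B (f b) (f' b'))
  -- first subcase
  have step1 : ∀ j, P j → ∀ b b', (polar B (f b) (f' b')).coeff (l - 1 - j) = 0 := by
    intro j hj b b'
    by_contra hcon
    have e0 : ((j : ℤ) + (l - 1 - j)) = l - 1 := by ring
    have e1 : (l - 1 - (j : ℤ)) = l - 1 - j := rfl
    refine smooth2 hAB (l - 1) (l - 1) (f b) (f !b) ((T (j : ℤ) : LaurentSeries K) • f' b')
      ((hAf b).mono (by linarith)) ((hBf b).mono (by linarith))
      ((hAf _).mono (by linarith)) ((hBf _).mono (by linarith))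
      ((I_map_T_smul (hAf' b')).mono (by linarith [Int.natCast_nonneg j]))
      ((I_map_T_smul (hBf' b')).mono (by linarith [Int.natCast_nonneg j]))
      (hpA b) ((hpB b).mono (by linarith)) ?_ ?_ ?_ ?_ ?_
    · have := I_polar_T_smul_right (m := (j : ℤ)) (hj b b').1
      rwa [e0] at this
    · have := I_polar_T_smul_right (m := (j : ℤ)) (hj b b').2
      rwa [e0] at this
    · have := I_polar_T_smul_right (m := (j : ℤ)) (hj (!b) b').1
      rwa [e0] at this
    · have := I_polar_T_smul_right (m := (j : ℤ)) (hj (!b) b').2
      rwa [e0] at this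
    · rw [coeff_polar_T_smul_right, coeff_polar_T_smul_right, hpB b (l - 1) (by linarith),
        mul_zero, sub_zero]
      exact mul_ne_zero (hneA b) hcon
  -- second subcase
  have step2 : ∀ j, P (j + 1) → ∀ b b', (polar A (f b) (f' b')).coeff (l - 1 - (j + 1)) = 0 := by
    intro j hj b b'
    by_contra hcon
    have hB : ∀ b b', I (l - 1 - j) (polar B (f b) (f' b')) := by
      intro b b'
      have := (hj b b').2.succ (step1 (j + 1) hj b b')
      push_cast at this
      have e : l - 1 - ((j : ℤ) + 1) + 1 = l - 1 - j := by ring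
      rwa [e] at this
    have hA : ∀ b b', I (l - 1 - (j + 1)) (polar A (f b) (f' b')) := by
      intro b b'
      have := (hj b b').1
      push_cast at this
      exact this
    have e0 : ((j : ℤ) + (l - 1 - (j + 1))) = l - 2 := by ring
    have e1 : ((j : ℤ) + (l - 1 - j)) = l - 1 := by ring
    refine smooth2 hAB (l - 2) (l - 1) (f' b') ((T (j : ℤ) : LaurentSeries K) • f b) (f' !b')
      ((hAf' b').mono (by linarith)) ((hBf' b').mono (by linarith))
      ((I_map_T_smul (hAf b)).mono (by linarith [Int.natCast_nonneg j]))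
      ((I_map_T_smul (hBf b)).mono (by linarith [Int.natCast_nonneg j]))
      ((hAf' _).mono (by linarith)) ((hBf' _).mono (by linarith)) ?_ ?_
      ((hpA' b').mono (by linarith)) (hpB' b') ?_ ?_ ?_
    · rw [polar_comm]
      have := I_polar_T_smul_left (m := (j : ℤ)) (hA b b')
      rwa [e0] at this
    · rw [polar_comm]
      have := I_polar_T_smul_left (m := (j : ℤ)) (hB b b')
      rwa [e1] at this
    · have := I_polar_T_smul_left (m := (j : ℤ)) (hA b (!b'))
      rwa [e0] at this
    · have := I_polar_T_smul_left (m := (j : ℤ)) (hB b (!b'))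
      rwa [e1] at this
    · rw [polar_comm A, coeff_polar_T_smul_left, hpA' b' (l - 2) (by linarith), zero_mul,
        sub_zero]
      refine mul_ne_zero ?_ (hneB' b')
      have e : l - 2 - (j : ℤ) = l - 1 - (j + 1) := by ring
      rw [e]
      exact hcon
  have hdown : ∀ j, P (j + 1) → P j := by
    intro j hj b b'
    have e : l - 1 - ((j : ℤ) + 1) + 1 = l - 1 - j := by ring
    have h1 := (hj b b').1
    have h2 := (hj b b').2
    have h3 := step1 (j + 1) hj b b'
    push_cast at h1 h2 h3
    refine ⟨?_, ?_⟩
    · have := h1.succ (step2 j hj b b')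
      rwa [e] at this
    · have := h2.succ h3
      rwa [e] at this
  have hex : ∃ j, P j := by
    have h1 : ∀ b b', ∃ j : ℕ, I (l - 1 - j) (polar A (f b) (f' b')) ∧
        I (l - 1 - j) (polar B (f b) (f' b')) := by
      intro b b'
      obtain ⟨k, hk⟩ := exists_I (polar A (f b) (f' b'))
      obtain ⟨k', hk'⟩ := exists_I (polar B (f b) (f' b'))
      refine ⟨(l - 1 - min k k').toNat, hk.mono ?_, hk'.mono ?_⟩
      · have := Int.self_le_toNat (l - 1 - min k k')
        have := min_le_left k k'
        linarith
      · have := Int.self_le_toNat (l - 1 - min k k')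
        have := min_le_right k k'
        linarith
    choose j hj using h1
    refine ⟨j false false + j false true + j true false + j true true, fun b b' => ?_⟩
    have hle : (j b b' : ℤ) ≤
        ((j false false + j false true + j true false + j true true : ℕ) : ℤ) := by
      cases b <;> cases b' <;> push_cast <;> linarith [Int.natCast_nonneg (j false false),
        Int.natCast_nonneg (j false true), Int.natCast_nonneg (j true false),
        Int.natCast_nonneg (j true true)]
    exact ⟨(hj b b').1.mono (by linarith), (hj b b').2.mono (by linarith)⟩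
  have hP0 : P 0 := by
    obtain ⟨j, hj⟩ := hex
    induction j with
    | zero => exact hj
    | succ j ih => exact ih (hdown j hj)
  have hcA : ∀ b b', I (l - 1) (polar A (f b) (f' b')) := fun b b' => by
    simpa using (hP0 b b').1
  have hcB : ∀ b b', I l (polar B (f b) (f' b')) := fun b b' => by
    have h1 := (hP0 b b').2
    have h2 := step1 0 hP0 b b'
    have := h1.succ h2
    have e : l - 1 - ((0 : ℕ) : ℤ) + 1 = l := by push_cast; ring
    rwa [e] at this
  -- the explicit zero
  set x := f false with hx
  set y := f true with hy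
  set x' := f' false with hx'
  set y' := f' true with hy'
  set β := (polar A x y).coeff (l - 1) with hβ
  set c₁ := (polar A x x').coeff (l - 1) with hc₁
  set c₃ := (polar A y x').coeff (l - 1) with hc₃
  set κ := (A x').coeff (l - 1) with hκ
  set b : K := (1 - c₁) / β with hb
  set a : K := -κ - b * c₃ with ha
  have hβ0 : β ≠ 0 := hne
  have hbβ : b * β = 1 - c₁ := by rw [hb]; field_simp
  let z : V := (C a : LaurentSeries K) • x + (C b : LaurentSeries K) • y + x'
  have hzQ : ∀ Q : QuadraticMap (LaurentSeries K) V (LaurentSeries K), Q z =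
      C a * C a * Q x + C b * C b * Q y + Q x' + C a * (C b * polar Q x y) +
        C a * polar Q x x' + C b * polar Q y x' := by
    intro Q
    have h1 : ∀ u v : V, Q (u + v) = Q u + Q v + polar Q u v := fun u v => by
      rw [polar]; ring
    simp only [z]
    rw [h1, h1, QuadraticMap.map_smul, QuadraticMap.map_smul, polar_smul_left, polar_smul_right,
      polar_add_left, polar_smul_left, polar_smul_left]
    simp only [smul_eq_mul]
    ring
  have hzp : ∀ (Q : QuadraticMap (LaurentSeries K) V (LaurentSeries K)) (v : V),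
      polar Q z v = C a * polar Q x v + C b * polar Q y v + polar Q x' v := by
    intro Q v
    simp only [z]
    rw [polar_add_left, polar_add_left, polar_smul_left, polar_smul_left, smul_eq_mul,
      smul_eq_mul]
  have hCC : ∀ (k : ℤ) (q : LaurentSeries K) (c : K), I k q → I k (C c * C c * q) := by
    intro k q c h
    rw [mul_assoc]
    exact (h.C_mul c).C_mul c
  have hAx := hAf false
  have hAy := hAf true
  have hBx := hBf false
  have hBy := hBf true
  rw [← hx] at hAx hBx
  rw [← hy] at hAy hBy
  have hself : ∀ (Q : QuadraticMap (LaurentSeries K) V (LaurentSeries K)) (k : ℤ) (y : V),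
      I k (Q y) → I k (polar Q y y) := by
    intro Q k y h
    rw [polar_self, two_smul]
    exact h.add h
  refine smooth2 hAB (l - 1) (l - 1) z x y' ?_ ?_ (hAx.mono (by linarith))
    (hBx.mono (by linarith)) (hAf' true) ((hBf' true).mono (by linarith)) ?_ ?_ ?_ ?_
    (hcA false true) ((hcB false true).mono (by linarith)) ?_
  · have h0 : I (l - 1) (A z) := by
      rw [hzQ]
      refine I.add (I.add (I.add (I.add (I.add ?_ ?_) ?_) ?_) ?_) ?_
      · exact hCC _ _ _ (hAx.mono (by linarith))
      · exact hCC _ _ _ (hAy.mono (by linarith))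
      · exact hAf' false
      · exact (hpAf.C_mul b).C_mul a
      · exact (hcA false false).C_mul a
      · exact (hcA true false).C_mul b
    refine h0.succ ?_
    rw [hzQ]
    simp only [HahnSeries.coeff_add, mul_assoc, coeff_C_mul']
    rw [hAx (l - 1) (by linarith), hAy (l - 1) (by linarith), ← hκ, ← hc₁, ← hc₃, ← hβ]
    simp only [mul_zero, zero_add]
    have : κ + a * (b * β) + a * c₁ + b * c₃ = κ + a + b * c₃ := by
      rw [hbβ]; ring
    rw [this, ha]; ring
  · have h0 : I l (B z) := by
      rw [hzQ]
      refine I.add (I.add (I.add (I.add (I.add ?_ ?_) ?_) ?_) ?_) ?_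
      · exact hCC _ _ _ hBx
      · exact hCC _ _ _ hBy
      · exact hBf' false
      · exact (hpBf.C_mul b).C_mul a
      · exact (hcB false false).C_mul a
      · exact (hcB true false).C_mul b
    exact h0.mono (by linarith)
  · rw [hzp]
    refine I.add (I.add ?_ ?_) ?_
    · exact ((hself A l x hAx).mono (by linarith)).C_mul a
    · rw [polar_comm]; exact hpAf.C_mul b
    · rw [polar_comm]; exact hcA false false
  · rw [hzp]
    refine I.add (I.add ?_ ?_) ?_
    · exact ((hself B l x hBx).mono (by linarith)).C_mul a
    · rw [polar_comm]; exact (hpBf.mono (by linarith)).C_mul b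
    · rw [polar_comm]; exact (hcB false false).mono (by linarith)
  · rw [hzp]
    exact ((hcA false true).C_mul a).add ((hcA true true).C_mul b) |>.add hpAf'
  · rw [hzp]
    refine I.add (I.add ?_ ?_) hpBf'
    · exact ((hcB false true).mono (by linarith)).C_mul a
    · exact ((hcB true true).mono (by linarith)).C_mul b
  · have e1 : (polar A z x).coeff (l - 1) = 1 := by
      rw [hzp]
      simp only [HahnSeries.coeff_add, coeff_C_mul']
      rw [hself A l x hAx (l - 1) (by linarith), polar_comm A y x, polar_comm A x' x, ← hβ,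
        ← hc₁, hbβ]
      ring
    have e2 : (polar B z x).coeff (l - 1) = 0 := by
      rw [hzp]
      simp only [HahnSeries.coeff_add, coeff_C_mul']
      rw [hself B l x hBx (l - 1) (by linarith), polar_comm B y x, polar_comm B x' x,
        hpBf (l - 1) (by linarith), hcB false false (l - 1) (by linarith)]
      ring
    have e3 : (polar B z y').coeff (l - 1) = (polar B x' y').coeff (l - 1) := by
      rw [hzp]
      simp only [HahnSeries.coeff_add, coeff_C_mul']
      rw [hcB false true (l - 1) (by linarith), hcB true true (l - 1) (by linarith)]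
      ring
    rw [e1, e2, e3, one_mul, mul_zero, sub_zero]
    exact hne'

end Pool.Agent.Lib.MP_25ed17_al
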