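import Pool.Agent.Lib.MP_25ed17_al.Lau

/-!
Lifting of smooth zeros of systems of quadratic forms over Laurent series fields.
-/

namespace Pool.Agent.Lib.MP_25ed17_al

open HahnSeries QuadraticMap

variable {K : Type*} [Field K] {V : Type*} [AddCommGroup V] [Module (LaurentSeries K) V]
  {ι : Type*}

theorem polar_sum_left' {κ : Type*} (Q : QuadraticMap (LaurentSeries K) V (ι → LaurentSeries K))
    (s : Finset κ) (a : κ → LaurentSeries K) (y : κ → V) (v : V) :
    polar Q (∑ j ∈ s, a j • y j) v = ∑ j ∈ s, a j • polar Q (y j) v := by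
  have := congrArg (fun f => f v) (map_sum (polarBilin Q) (fun j => a j • y j) s)
  simp only [polarBilin_apply_apply] at this
  rw [this, LinearMap.sum_apply]
  refine Finset.sum_congr rfl fun j _ => ?_
  rw [map_smul, LinearMap.smul_apply, polarBilin_apply_apply]

theorem polar_sum_right' {κ : Type*} (Q : QuadraticMap (LaurentSeries K) V (ι → LaurentSeries K))
    (s : Finset κ) (a : κ → LaurentSeries K) (y : κ → V) (v : V) :
    polar Q v (∑ j ∈ s, a j • y j) = ∑ j ∈ s, a j • polar Q v (y j) := by
  rw [polar_comm, polar_sum_left']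
  exact Finset.sum_congr rfl fun j _ => by rw [polar_comm]

theorem map_add' (Q : QuadraticMap (LaurentSeries K) V (ι → LaurentSeries K)) (x y : V) :
    Q (x + y) = Q x + Q y + polar Q x y := by
  rw [polar]; abel

variable [Fintype ι] [DecidableEq ι]

theorem I_polar_sum {Q : QuadraticMap (LaurentSeries K) V (ι → LaurentSeries K)} {k : ι → ℤ}
    {y : ι → V} (hyy : ∀ i j l, I (k i) (polar Q (y j) (y l) i)) {m m' : ℤ}
    {a b : ι → LaurentSeries K} (ha : ∀ j, I m (a j)) (hb : ∀ j, I m' (b j)) (i : ι) :
    I (m + m' + k i) (polar Q (∑ j, a j • y j) (∑ l, b l • y l) i) := by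
  rw [polar_sum_left', Finset.sum_apply]
  refine I.sum fun j _ => ?_
  rw [Pi.smul_apply, polar_sum_right', Finset.sum_apply, smul_eq_mul, add_assoc]
  refine (ha j).mul (I.sum fun l _ => ?_)
  rw [Pi.smul_apply, smul_eq_mul]
  exact (hb l).mul (hyy i j l)

theorem I_map_sum {Q : QuadraticMap (LaurentSeries K) V (ι → LaurentSeries K)} {k : ι → ℤ}
    {y : ι → V} (hy : ∀ i j, I (k i) (Q (y j) i))
    (hyy : ∀ i j l, I (k i) (polar Q (y j) (y l) i)) {m : ℤ}
    {a : ι → LaurentSeries K} (ha : ∀ j, I m (a j)) (i : ι) (s : Finset ι) :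
    I (m + m + k i) (Q (∑ j ∈ s, a j • y j) i) := by
  classical
  induction s using Finset.induction_on with
  | empty =>
    rw [Finset.sum_empty, map_zero]
    exact I_zero _
  | insert j s hj ih =>
    rw [Finset.sum_insert hj, map_add', Pi.add_apply, Pi.add_apply]
    refine I.add (I.add ?_ ih) ?_
    · rw [QuadraticMap.map_smul, Pi.smul_apply, smul_eq_mul]
      exact ((ha j).mul (ha j)).mul (hy i j)
    · rw [polar_sum_right', Finset.sum_apply]
      refine I.sum fun l _ => ?_
      rw [Pi.smul_apply, polar_smul_left, Pi.smul_apply, smul_eq_mul, smul_eq_mul, add_assoc]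
      exact (ha l).mul ((ha j).mul (hyy i j l))

/-- Smooth zeros lift. -/
theorem smooth_zero [Nonempty ι] (Q : QuadraticMap (LaurentSeries K) V (ι → LaurentSeries K))
    (k : ι → ℤ) (z : V) (y : ι → V) (hz : ∀ i, I (k i + 1) (Q z i))
    (hy : ∀ i j, I (k i) (Q (y j) i)) (hzy : ∀ i j, I (k i) (polar Q z (y j) i))
    (hyy : ∀ i j l, I (k i) (polar Q (y j) (y l) i))
    (hdet : (Matrix.of fun i j => (polar Q z (y j) i).coeff (k i)).det ≠ 0) :
    ∃ w, w ≠ 0 ∧ Q w = 0 := by
  set M : Matrix ι ι K := Matrix.of fun i j => (polar Q z (y j) i).coeff (k i) with hM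
  have hMapp : ∀ i j, M i j = (polar Q z (y j) i).coeff (k i) := fun i j => rfl
  let N : Matrix ι ι K := M⁻¹
  have hunit : IsUnit M.det := isUnit_iff_ne_zero.2 hdet
  have hNM : N * M = 1 := Matrix.nonsing_inv_mul M hunit
  have hMN : M * N = 1 := Matrix.mul_nonsing_inv M hunit
  let w : (ι → LaurentSeries K) → V := fun s => z + ∑ j, s j • y j
  let R : (ι → LaurentSeries K) → ι → LaurentSeries K := fun s i => T (-k i) * Q (w s) i
  -- the linear approximation
  have key : ∀ n : ℕ, ∀ s s', (∀ j, I 1 (s' j)) → (∀ j, I (n + 1) (s j - s' j)) → ∀ i,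
      I (n + 2) (R s i - R s' i - ∑ j, C (M i j) * (s j - s' j)) := by
    intro n s s' hs' hd i
    have hw : w s = w s' + ∑ j, (s j - s' j) • y j := by
      simp only [w, add_assoc, ← Finset.sum_add_distrib, ← add_smul]
      congr 1
      refine Finset.sum_congr rfl fun j _ => ?_
      congr 1
      ring
    have e1 : Q (w s) = Q (w s') + Q (∑ j, (s j - s' j) • y j) +
        (polar Q z (∑ j, (s j - s' j) • y j) +
          polar Q (∑ j, s' j • y j) (∑ j, (s j - s' j) • y j)) := by
      rw [hw, map_add', ← polar_add_left]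
    have e2 : R s i - R s' i - ∑ j, C (M i j) * (s j - s' j) =
        T (-k i) * Q (∑ j, (s j - s' j) • y j) i +
        T (-k i) * polar Q (∑ j, s' j • y j) (∑ j, (s j - s' j) • y j) i +
        ∑ j, (T (-k i) * polar Q z (y j) i - C (M i j)) * (s j - s' j) := by
      have h1 : polar Q z (∑ j, (s j - s' j) • y j) i =
          ∑ j, (s j - s' j) * polar Q z (y j) i := by
        rw [polar_sum_right', Finset.sum_apply]
        exact Finset.sum_congr rfl fun j _ => by rw [Pi.smul_apply, smul_eq_mul]
      have h2 : ∑ j, (T (-k i) * polar Q z (y j) i - C (M i j)) * (s j - s' j) =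
          T (-k i) * polar Q z (∑ j, (s j - s' j) • y j) i -
            ∑ j, C (M i j) * (s j - s' j) := by
        rw [h1, Finset.mul_sum, ← Finset.sum_sub_distrib]
        exact Finset.sum_congr rfl fun j _ => by ring
      have h3 : Q (w s) i = Q (w s') i + Q (∑ j, (s j - s' j) • y j) i +
          (polar Q z (∑ j, (s j - s' j) • y j) i +
          polar Q (∑ j, s' j • y j) (∑ j, (s j - s' j) • y j) i) := congrFun e1 i
      simp only [R]
      rw [h2, h3]
      ring
    rw [e2]
    refine I.add (I.add ?_ ?_) (I.sum fun j _ => ?_)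
    · have h1 := I_map_sum hy hyy hd i Finset.univ
      have h2 : ((n : ℤ) + 1 + (n + 1) + k i) = k i + (n + 1 + (n + 1)) := by ring
      rw [h2] at h1
      have h3 : I (n + 1 + (n + 1) : ℤ) (T (-k i) * Q (∑ j, (s j - s' j) • y j) i) := by
        have := (I_T_mul (k := -k i)).2 h1
        rwa [neg_add_cancel_left] at this
      exact h3.mono (by linarith)
    · have h1 := I_polar_sum hyy hs' hd i
      have h2 : ((1 : ℤ) + (n + 1) + k i) = k i + (n + 2) := by ring
      rw [h2] at h1
      have := (I_T_mul (k := -k i)).2 h1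
      rwa [neg_add_cancel_left] at this
    · have h1 : I 1 (T (-k i) * polar Q z (y j) i - C (M i j)) := by
        have h0 : I 0 (T (-k i) * polar Q z (y j) i) := by
          have := (I_T_mul (k := -k i)).2 (hzy i j)
          rwa [neg_add_cancel] at this
        have h3 := (h0.sub (I_C (M i j))).succ (by
          rw [HahnSeries.coeff_sub, coeff_T_mul, zero_sub, neg_neg, C_apply, coeff_single_same,
            hMapp, sub_self])
        simpa using h3
      have := h1.mul (hd j)
      have e : (1 : ℤ) + (n + 1) = n + 2 := by ring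
      rwa [e] at this
  let Φ : (ι → LaurentSeries K) → (ι → LaurentSeries K) := fun s j =>
    s j - ∑ i, C (N j i) * R s i
  have hR0 : ∀ i, I 1 (R 0 i) := by
    intro i
    have : R 0 i = T (-k i) * Q z i := by simp [R, w]
    rw [this]
    have h := (I_T_mul (k := -k i)).2 (hz i)
    rwa [neg_add_cancel_left] at h
  have hR1 : ∀ s, (∀ j, I 1 (s j)) → ∀ i, I 1 (R s i) := by
    intro s hs i
    have h := key 0 s 0 (fun j => I_zero 1) (by simpa using hs) i
    have e : R s i = (R s i - R 0 i - ∑ j, C (M i j) * (s j - (0 : ι → LaurentSeries K) j)) +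
        R 0 i + ∑ j, C (M i j) * (s j - (0 : ι → LaurentSeries K) j) := by ring
    rw [e]
    refine I.add (I.add (h.mono (by norm_num)) (hR0 i)) (I.sum fun j _ => I.C_mul ?_ _)
    simpa using hs j
  obtain ⟨s, hs, hfix⟩ := exists_fixed Φ
    (fun s hs j => (hs j).sub (I.sum fun i _ => (hR1 s hs i).C_mul _))
    (fun n s s' hs hs' hd j => by
      have e : Φ s j - Φ s' j = -∑ i, C (N j i) *
          (R s i - R s' i - ∑ l, C (M i l) * (s l - s' l)) := by
        have h1 : ∑ i, C (N j i) * ∑ l, C (M i l) * (s l - s' l) = s j - s' j := by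
          have h2 : ∑ i, C (N j i) * ∑ l, C (M i l) * (s l - s' l) =
              ∑ l, C ((N * M) j l) * (s l - s' l) := by
            simp only [Finset.mul_sum]
            rw [Finset.sum_comm]
            refine Finset.sum_congr rfl fun l _ => ?_
            rw [Matrix.mul_apply, map_sum, Finset.sum_mul]
            refine Finset.sum_congr rfl fun i _ => ?_
            rw [map_mul]; ring
          rw [h2, hNM, Finset.sum_eq_single j]
          · rw [Matrix.one_apply_eq, map_one, one_mul]
          · intro l _ hl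
            rw [Matrix.one_apply_ne (Ne.symm hl), map_zero, zero_mul]
          · intro h; exact absurd (Finset.mem_univ j) h
        simp only [Φ, mul_sub, Finset.sum_sub_distrib]
        simp only [mul_sub, Finset.sum_sub_distrib] at h1
        rw [h1]; ring
      rw [e]
      exact (I.sum fun i _ => (key n s s' hs' hd i).C_mul _).neg)
  have hNR : ∀ j, ∑ i, C (N j i) * R s i = 0 := fun j => by
    have := congrFun hfix j
    simp only [Φ] at this
    exact sub_eq_self.1 this
  have hR : ∀ i, R s i = 0 := by
    intro i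
    have h2 : ∑ j, C (M i j) * ∑ l, C (N j l) * R s l = ∑ l, C ((M * N) i l) * R s l := by
      simp only [Finset.mul_sum]
      rw [Finset.sum_comm]
      refine Finset.sum_congr rfl fun l _ => ?_
      rw [Matrix.mul_apply, map_sum, Finset.sum_mul]
      refine Finset.sum_congr rfl fun i _ => ?_
      rw [map_mul]; ring
    have h3 : ∑ l, C ((M * N) i l) * R s l = R s i := by
      rw [hMN, Finset.sum_eq_single i]
      · rw [Matrix.one_apply_eq, map_one, one_mul]
      · intro l _ hl
        rw [Matrix.one_apply_ne (Ne.symm hl), map_zero, zero_mul]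
      · intro h; exact absurd (Finset.mem_univ i) h
    rw [← h3, ← h2]
    exact Finset.sum_eq_zero fun j _ => by rw [hNR, mul_zero]
  refine ⟨w s, fun h0 => ?_, ?_⟩
  · apply hdet
    have hz' : z = ∑ j, (-s j) • y j := by
      have : z + ∑ j, s j • y j = 0 := h0
      rw [eq_neg_of_add_eq_zero_left this, ← Finset.sum_neg_distrib]
      exact Finset.sum_congr rfl fun j _ => by rw [neg_smul]
    have hM0 : M = 0 := by
      ext i l
      rw [hMapp, Matrix.zero_apply, hz', polar_sum_left', Finset.sum_apply]
      have h3 : I (k i + 1) (∑ j, ((-s j) • polar Q (y j) (y l)) i) := I.sum fun j _ => by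
        rw [Pi.smul_apply, smul_eq_mul, add_comm]
        exact (hs j).neg.mul (hyy i j l)
      exact h3 (k i) (by linarith)
    rw [hM0, Matrix.det_zero]
  · funext i
    have h1 := hR i
    simp only [R] at h1
    rcases mul_eq_zero.1 h1 with h2 | h2
    · exact absurd h2 (T_ne_zero _)
    · exact h2

end Pool.Agent.Lib.MP_25ed17_al
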