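import Pool.Agent.Lib.MP_25ed17_al.Pairs

/-!
The walk in the tree of lattices: an anisotropic pair of forms has a good lattice, or it
degenerates to a pair with a radical.
-/

namespace Pool.Agent.Lib.MP_25ed17_al

open HahnSeries QuadraticMap

variable {K : Type*} [Field K] {V : Type*} [AddCommGroup V] [Module (LaurentSeries K) V]
  {A B : QuadraticMap (LaurentSeries K) V (LaurentSeries K)}

/-- Existence of a bad pair of vectors, with direction given by the first coordinate. -/
def Bad (A B : QuadraticMap (LaurentSeries K) V (LaurentSeries K)) : Prop :=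
  ∃ (l : ℤ) (x y : V), I l (A x) ∧ I l (A y) ∧ I l (B x) ∧ I l (B y) ∧
    I (l - 1) (polar A x y) ∧ (polar A x y).coeff (l - 1) ≠ 0 ∧ I l (polar B x y)

/-- The sets of vectors with values divisible by a given power are closed under addition. -/
def Good (A B : QuadraticMap (LaurentSeries K) V (LaurentSeries K)) : Prop :=
  ∀ (l : ℤ) (x y : V), I l (A x) → I l (A y) → I l (B x) → I l (B y) →
    I l (polar A x y) ∧ I l (polar B x y)

theorem polar_smul' (c : LaurentSeries K) (x y : V) : polar (c • A) x y = c * polar A x y := by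
  simp only [polar, smul_apply, smul_eq_mul]
  ring

theorem polar_sub_smul (c : LaurentSeries K) (x y : V) :
    polar (B - c • A) x y = polar B x y - c * polar A x y := by
  simp only [polar, sub_apply, smul_apply, smul_eq_mul]
  ring

theorem sub_smul_apply (c : LaurentSeries K) (x : V) : (B - c • A) x = B x - c * A x := rfl

theorem smul_apply' (c : LaurentSeries K) (x : V) : (c • A) x = c * A x := rfl

theorem Aniso.swap (h : Aniso A B) : Aniso B A := fun x h1 h2 => h x h2 h1

theorem Aniso.smul_left (h : Aniso A B) {c : LaurentSeries K} (hc : c ≠ 0) :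
    Aniso (c • A) B := fun x h1 h2 => h x (by
  rw [smul_apply'] at h1
  exact (mul_eq_zero.1 h1).resolve_left hc) h2

theorem Aniso.sub_smul (h : Aniso A B) (c : LaurentSeries K) : Aniso A (B - c • A) :=
  fun x h1 h2 => h x h1 (by
    rw [sub_smul_apply, h1, mul_zero, sub_zero] at h2
    exact h2)

theorem not_both (h : Aniso A B) (h1 : Bad A B) (h2 : Bad B ((T 1 : LaurentSeries K) • A)) :
    False := by
  obtain ⟨l, x, y, hAx, hAy, hBx, hBy, hpA, hne, hpB⟩ := h1
  obtain ⟨l', x', y', hBx', hBy', hAx', hAy', hpB', hne', hpA'⟩ := h2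
  rw [smul_apply'] at hAx' hAy'
  rw [polar_smul'] at hpA'
  have hT : ∀ a : LaurentSeries K, I l' (T 1 * a) → I (l' - 1) a := by
    intro a ha
    have e : l' = 1 + (l' - 1) := by ring
    rw [e, I_T_mul] at ha
    exact ha
  have hpar : (∃ m : ℤ, l' = l + (m + m)) ∨ (∃ m : ℤ, l' = l + (m + m) + 1) := by
    rcases Int.even_or_odd' (l' - l) with ⟨m, h | h⟩
    · exact Or.inl ⟨m, by linarith⟩
    · exact Or.inr ⟨m, by linarith⟩
  rcases hpar with ⟨m, hm⟩ | ⟨m, hm⟩
  · have e1 : -m + -m + l' = l := by rw [hm]; ring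
    have e2 : -m + -m + (l' - 1) = l - 1 := by rw [hm]; ring
    refine core h l (fun b => cond b y x) (fun b => cond b ((T (-m) : LaurentSeries K) • y')
      ((T (-m) : LaurentSeries K) • x')) ?_ ?_ hpA hne hpB ?_ ?_ ?_ ?_ ?_
    · intro b; cases b
      · exact hAx
      · exact hAy
    · intro b; cases b
      · exact hBx
      · exact hBy
    · intro b; cases b
      · have := I_map_T_smul (m := -m) (hT _ hAx'); rwa [e2] at this
      · have := I_map_T_smul (m := -m) (hT _ hAy'); rwa [e2] at this
    · intro b; cases b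
      · have := I_map_T_smul (m := -m) hBx'; rwa [e1] at this
      · have := I_map_T_smul (m := -m) hBy'; rwa [e1] at this
    · have := I_polar_T_smul_left (m := -m) (I_polar_T_smul_right (m := -m) (hT _ hpA'))
      rw [← add_assoc, e2] at this
      exact this
    · have := I_polar_T_smul_left (m := -m) (I_polar_T_smul_right (m := -m) hpB')
      rw [← add_assoc, e2] at this
      exact this
    · change (polar B ((T (-m) : LaurentSeries K) • x') ((T (-m) : LaurentSeries K) • y')).coeff
        (l - 1) ≠ 0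
      rw [coeff_polar_T_smul_left, coeff_polar_T_smul_right]
      have e : l - 1 - -m - -m = l' - 1 := by rw [hm]; ring
      rw [e]; exact hne'
  · have hA' : Aniso B ((T 1 : LaurentSeries K) • A) := (h.smul_left (T_ne_zero 1)).swap
    have e1 : m + m + l = l' - 1 := by rw [hm]; ring
    have e2 : m + m + (l - 1) = l' - 2 := by rw [hm]; ring
    have hT1 : ∀ a : LaurentSeries K, I (l' - 1) a → I l' (T 1 * a) := by
      intro a ha
      have := (I_T_mul (k := 1)).2 ha
      rwa [add_sub_cancel] at this
    have hT2 : ∀ a : LaurentSeries K, I (l' - 2) a → I (l' - 1) (T 1 * a) := by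
      intro a ha
      have := (I_T_mul (k := 1)).2 ha
      have e : 1 + (l' - 2) = l' - 1 := by ring
      rwa [e] at this
    refine core hA' l' (fun b => cond b y' x') (fun b => cond b ((T m : LaurentSeries K) • y)
      ((T m : LaurentSeries K) • x)) ?_ ?_ hpB' hne' ?_ ?_ ?_ ?_ ?_ ?_
    · intro b; cases b
      · exact hBx'
      · exact hBy'
    · intro b; cases b
      · exact hAx'
      · exact hAy'
    · rw [polar_smul']; exact hpA'
    · intro b; cases b
      · have := I_map_T_smul (m := m) hBx; rwa [e1] at this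
      · have := I_map_T_smul (m := m) hBy; rwa [e1] at this
    · intro b; cases b
      · have := I_map_T_smul (m := m) hAx; rw [e1] at this; exact hT1 _ this
      · have := I_map_T_smul (m := m) hAy; rw [e1] at this; exact hT1 _ this
    · have := I_polar_T_smul_left (m := m) (I_polar_T_smul_right (m := m) hpB)
      rw [← add_assoc, e1] at this
      exact this
    · have := I_polar_T_smul_left (m := m) (I_polar_T_smul_right (m := m) hpA)
      rw [← add_assoc, e2] at this
      rw [polar_smul']
      exact hT2 _ this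
    · rw [polar_smul', coeff_T_mul]
      change (polar A ((T m : LaurentSeries K) • x) ((T m : LaurentSeries K) • y)).coeff
        (l' - 1 - 1) ≠ 0
      rw [coeff_polar_T_smul_left, coeff_polar_T_smul_right]
      have e : l' - 1 - 1 - m - m = l - 1 := by rw [hm]; ring
      rw [e]; exact hne

/-- At a lattice which is not good there is a bad pair of vectors with some direction. -/
theorem exists_dir (h : ¬ Good A B) :
    (∃ c : K, Bad A (B - (C c : LaurentSeries K) • A)) ∨ Bad B A := by
  simp only [Good, not_forall] at h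
  obtain ⟨l, x, y, hAx, hAy, hBx, hBy, hn⟩ := h
  -- find the level
  have hlev : ∃ j : ℕ, (I (l - 1 - j) (polar A x y) ∧ I (l - 1 - j) (polar B x y)) ∧
      ((polar A x y).coeff (l - 1 - j) ≠ 0 ∨ (polar B x y).coeff (l - 1 - j) ≠ 0) := by
    have hex : ∃ j : ℕ, I (l - j) (polar A x y) ∧ I (l - j) (polar B x y) := by
      obtain ⟨k, hk⟩ := exists_I (polar A x y)
      obtain ⟨k', hk'⟩ := exists_I (polar B x y)
      refine ⟨(l - min k k').toNat, hk.mono ?_, hk'.mono ?_⟩
      · have := Int.self_le_toNat (l - min k k')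
        have := min_le_left k k'
        linarith
      · have := Int.self_le_toNat (l - min k k')
        have := min_le_right k k'
        linarith
    classical
    let j := Nat.find hex
    have hj : I (l - j) (polar A x y) ∧ I (l - j) (polar B x y) := Nat.find_spec hex
    have hj0 : j ≠ 0 := by
      intro h0
      rw [h0] at hj
      apply hn
      simpa using hj
    obtain ⟨i, hi⟩ := Nat.exists_eq_succ_of_ne_zero hj0
    have hji : (j : ℤ) = i + 1 := by rw [hi]; push_cast; ring
    have e : l - (j : ℤ) = l - 1 - i := by rw [hji]; ring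
    rw [e] at hj
    refine ⟨i, hj, ?_⟩
    by_contra hcon
    push Not at hcon
    have h1 := hj.1.succ hcon.1
    have h2 := hj.2.succ hcon.2
    have e' : l - 1 - (i : ℤ) + 1 = l - i := by ring
    rw [e'] at h1 h2
    have := Nat.find_min' hex ⟨h1, h2⟩
    change j ≤ i at this
    omega
  obtain ⟨j, ⟨hpA, hpB⟩, hcoef⟩ := hlev
  have hj0 := Int.natCast_nonneg j
  have e0 : (j : ℤ) + (l - 1 - j) = l - 1 := by ring
  have hA1 : I l (A ((T (j : ℤ) : LaurentSeries K) • x)) :=
    (I_map_T_smul hAx).mono (by linarith)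
  have hB1 : I l (B ((T (j : ℤ) : LaurentSeries K) • x)) :=
    (I_map_T_smul hBx).mono (by linarith)
  have hpA1 : I (l - 1) (polar A ((T (j : ℤ) : LaurentSeries K) • x) y) := by
    have := I_polar_T_smul_left (m := (j : ℤ)) hpA
    rwa [e0] at this
  have hpB1 : I (l - 1) (polar B ((T (j : ℤ) : LaurentSeries K) • x) y) := by
    have := I_polar_T_smul_left (m := (j : ℤ)) hpB
    rwa [e0] at this
  have hcA : (polar A ((T (j : ℤ) : LaurentSeries K) • x) y).coeff (l - 1) =
      (polar A x y).coeff (l - 1 - j) := coeff_polar_T_smul_left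
  have hcB : (polar B ((T (j : ℤ) : LaurentSeries K) • x) y).coeff (l - 1) =
      (polar B x y).coeff (l - 1 - j) := coeff_polar_T_smul_left
  by_cases hA0 : (polar A x y).coeff (l - 1 - j) = 0
  · right
    have hB0 := hcoef.resolve_left (not_not.2 hA0)
    refine ⟨l, (T (j : ℤ) : LaurentSeries K) • x, y, hB1, hBy, hA1, hAy, hpB1, ?_, ?_⟩
    · rw [hcB]; exact hB0
    · have := hpA1.succ (by rw [hcA]; exact hA0)
      simpa using this
  · left
    refine ⟨(polar B x y).coeff (l - 1 - j) / (polar A x y).coeff (l - 1 - j), l,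
      (T (j : ℤ) : LaurentSeries K) • x, y, hA1, hAy, ?_, ?_, hpA1, ?_, ?_⟩
    · rw [sub_smul_apply]; exact hB1.sub (hA1.C_mul _)
    · rw [sub_smul_apply]; exact hBy.sub (hAy.C_mul _)
    · rw [hcA]; exact hA0
    · rw [polar_sub_smul]
      have := (hpB1.sub (hpA1.C_mul _)).succ (k := l - 1)
        (a := polar B ((T (j : ℤ) : LaurentSeries K) • x) y -
          C ((polar B x y).coeff (l - 1 - j) / (polar A x y).coeff (l - 1 - j)) *
            polar A ((T (j : ℤ) : LaurentSeries K) • x) y) (by
        rw [HahnSeries.coeff_sub, coeff_C_mul', hcA, hcB]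
        field_simp
        ring)
      simpa using this

theorem Bad.shift (h : Bad A B) {τ : LaurentSeries K} (hτ : I 1 τ) : Bad A (B - τ • A) := by
  obtain ⟨l, x, y, hAx, hAy, hBx, hBy, hpA, hne, hpB⟩ := h
  refine ⟨l, x, y, hAx, hAy, ?_, ?_, hpA, hne, ?_⟩
  · rw [sub_smul_apply]; exact hBx.sub ((hτ.mul hAx).mono (by linarith))
  · rw [sub_smul_apply]; exact hBy.sub ((hτ.mul hAy).mono (by linarith))
  · rw [polar_sub_smul]; exact hpB.sub ((hτ.mul hpA).mono (by linarith))

/-- If no lattice is good then all lattices along some ray have bad pairs pointing to the end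
of the ray. -/
theorem exists_ray (hno : ∀ A' B' : QuadraticMap (LaurentSeries K) V (LaurentSeries K),
    Aniso A' B' → ¬ Good A' B') (hAB : Aniso A B) :
    ∃ A' B' : QuadraticMap (LaurentSeries K) V (LaurentSeries K), Aniso A' B' ∧
      ∀ i : ℕ, Bad ((T (i : ℤ) : LaurentSeries K) • A') B' := by
  have hstart : ∃ A' B' : QuadraticMap (LaurentSeries K) V (LaurentSeries K), Aniso A' B' ∧
      Bad A' B' := by
    rcases exists_dir (hno A B hAB) with ⟨c, hc⟩ | hc
    · exact ⟨A, _, hAB.sub_smul _, hc⟩
    · exact ⟨B, A, hAB.swap, hc⟩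
  obtain ⟨A, B, hAB, hbad⟩ := hstart
  have hstep : ∀ (i : ℕ) (p : LaurentSeries K), Bad ((T (i : ℤ) : LaurentSeries K) • A)
      (B - p • A) → ∃ c : K, Bad ((T ((i + 1 : ℕ) : ℤ) : LaurentSeries K) • A)
        (B - (p + C c * T ((i + 1 : ℕ) : ℤ)) • A) := by
    intro i p hp
    have han : Aniso ((T (i : ℤ) : LaurentSeries K) • A) (B - p • A) :=
      (hAB.sub_smul p).smul_left (T_ne_zero _)
    have e1 : (T 1 : LaurentSeries K) • (T (i : ℤ) : LaurentSeries K) • A =
        (T ((i + 1 : ℕ) : ℤ) : LaurentSeries K) • A := by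
      rw [smul_smul, T_mul]
      congr 2
      push_cast; ring
    have han' : Aniso ((T ((i + 1 : ℕ) : ℤ) : LaurentSeries K) • A) (B - p • A) :=
      (hAB.sub_smul p).smul_left (T_ne_zero _)
    rcases exists_dir (hno _ _ han') with ⟨c, hc⟩ | hc
    · refine ⟨c, ?_⟩
      have e2 : B - p • A - (C c : LaurentSeries K) • (T ((i + 1 : ℕ) : ℤ) : LaurentSeries K) • A =
          B - (p + C c * T ((i + 1 : ℕ) : ℤ)) • A := by
        rw [smul_smul, add_smul]
        abel
      rwa [e2] at hc
    · exfalso
      refine not_both han hp ?_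
      rw [e1]
      exact hc
  choose! next hnext using hstep
  let seq : ℕ → LaurentSeries K := fun n => Nat.rec 0 (fun i p => p + C (next i p) *
    T ((i + 1 : ℕ) : ℤ)) n
  have hseq0 : seq 0 = 0 := rfl
  have hseqs : ∀ i, seq (i + 1) = seq i + C (next i (seq i)) * T ((i + 1 : ℕ) : ℤ) :=
    fun i => rfl
  have hbadseq : ∀ i : ℕ, Bad ((T (i : ℤ) : LaurentSeries K) • A) (B - seq i • A) := by
    intro i
    induction i with
    | zero =>
      have e1 : (T ((0 : ℕ) : ℤ) : LaurentSeries K) = 1 := T_zero
      rw [e1, hseq0, one_smul, zero_smul, sub_zero]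
      exact hbad
    | succ i ih =>
      rw [hseqs]
      exact hnext i (seq i) ih
  have hdiff : ∀ (n k : ℕ), I (n + 1) (seq (n + k) - seq n) := by
    intro n k
    induction k with
    | zero => rw [add_zero, sub_self]; exact I_zero _
    | succ k ih =>
      have e : seq (n + (k + 1)) - seq n = (seq (n + k) - seq n) +
          C (next (n + k) (seq (n + k))) * T ((n + k + 1 : ℕ) : ℤ) := by
        rw [← add_assoc, hseqs]; ring
      rw [e]
      refine ih.add ((I_T _).mono ?_ |>.C_mul _)
      push_cast; linarith [Int.natCast_nonneg k]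
  have hI1 : ∀ n, I 1 (seq n) := by
    intro n
    have := hdiff 0 n
    rw [hseq0, sub_zero, zero_add] at this
    simpa using this
  let s : LaurentSeries K := ofPowerSeries ℤ K (PowerSeries.mk fun n => (seq n).coeff n)
  have hs : ∀ n : ℕ, I (n + 1) (s - seq n) := by
    intro n m hm
    rw [HahnSeries.coeff_sub, PowerSeries.coeff_coe]
    split_ifs with h
    · rw [zero_sub, hI1 n m (by linarith), neg_zero]
    · rw [PowerSeries.coeff_mk]
      have hm' : ((m.natAbs : ℕ) : ℤ) = m := Int.natAbs_of_nonneg (not_lt.1 h)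
      rw [hm']
      obtain ⟨k, hk⟩ : ∃ k, n = m.natAbs + k := Nat.exists_eq_add_of_le (by
        have : (m.natAbs : ℤ) < n + 1 := by rw [hm']; exact hm
        omega)
      have := hdiff m.natAbs k m (by rw [hm']; linarith)
      rw [← hk, HahnSeries.coeff_sub] at this
      rw [← neg_sub, this, neg_zero]
  refine ⟨A, B - s • A, hAB.sub_smul s, fun i => ?_⟩
  have hτ : I 1 (T (-(i : ℤ)) * (s - seq i)) := by
    have := (I_T_mul (k := -(i : ℤ))).2 (hs i)
    rwa [neg_add_cancel_left] at this
  have := (hbadseq i).shift hτ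
  have e : B - seq i • A - (T (-(i : ℤ)) * (s - seq i)) • (T (i : ℤ) : LaurentSeries K) • A =
      B - s • A := by
    have h1 : T (-(i : ℤ)) * (s - seq i) * T (i : ℤ) = s - seq i := by
      rw [mul_comm (T (-(i : ℤ)) * (s - seq i)), ← mul_assoc, T_mul, add_neg_cancel, T_zero,
        one_mul]
    rw [smul_smul, h1, sub_smul]
    abel
  rwa [e] at this

/-- At the end of a ray of bad lattices the second form has all its zeros in the radical. -/
theorem ray_end (hAB : Aniso A B)
    (hray : ∀ i : ℕ, Bad ((T (i : ℤ) : LaurentSeries K) • A) B) (x : V) (hx : B x = 0) (y : V) :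
    polar B x y = 0 := by
  by_contra hne
  -- normalize
  obtain ⟨y₀, hy₀, hBy₀⟩ : ∃ y₀, polar B x y₀ = 1 ∧ B y₀ = 0 := by
    obtain ⟨y₁, h1⟩ : ∃ y₁, polar B x y₁ = 1 := ⟨(polar B x y)⁻¹ • y, by
      rw [polar_smul_right, smul_eq_mul, inv_mul_cancel₀ hne]⟩
    refine ⟨y₁ + (-B y₁) • x, ?_, ?_⟩
    · rw [polar_add_right, h1, polar_smul_right, polar_self, hx, smul_zero, smul_zero, add_zero]
    · have h2 : ∀ u v : V, B (u + v) = B u + B v + polar B u v := fun u v => by
        rw [polar]; ring
      rw [h2, QuadraticMap.map_smul, hx, smul_zero, add_zero, polar_smul_right, polar_comm, h1,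
        smul_eq_mul, mul_one, add_neg_cancel]
  obtain ⟨k₁, hk₁⟩ := exists_I (A x)
  obtain ⟨k₂, hk₂⟩ := exists_I (A y₀)
  obtain ⟨k₃, hk₃⟩ := exists_I (polar A x y₀)
  let i : ℕ := (-min k₁ (min k₂ k₃)).toNat
  have hi : -min k₁ (min k₂ k₃) ≤ (i : ℤ) := Int.self_le_toNat _
  have hm1 := min_le_left k₁ (min k₂ k₃)
  have hm2 := (min_le_right k₁ (min k₂ k₃)).trans (min_le_left k₂ k₃)
  have hm3 := (min_le_right k₁ (min k₂ k₃)).trans (min_le_right k₂ k₃)
  have hT : ∀ (a : LaurentSeries K) (k : ℤ), I k a → -k ≤ i → I 1 (T 1 * (T (i : ℤ) * a)) := by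
    intro a k ha hk
    have := (I_T_mul (k := 1)).2 ((I_T_mul (k := (i : ℤ))).2 ha)
    exact this.mono (by linarith)
  refine not_both (hAB.smul_left (T_ne_zero (i : ℤ))) (hray i)
    ⟨1, x, y₀, ?_, ?_, ?_, ?_, ?_, ?_, ?_⟩
  · rw [hx]; exact I_zero 1
  · rw [hBy₀]; exact I_zero 1
  · rw [smul_apply', smul_apply']; exact hT _ _ hk₁ (by linarith)
  · rw [smul_apply', smul_apply']; exact hT _ _ hk₂ (by linarith)
  · rw [hy₀]
    simpa using I_C (K := K) 1
  · rw [hy₀, sub_self]
    simp
  · rw [polar_smul', polar_smul']; exact hT _ _ hk₃ (by linarith)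

end Pool.Agent.Lib.MP_25ed17_al
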